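import Pool.Agent.Lib.MP_1a91b9_ntT.DX.FrG
import Pool.Agent.Lib.MP_1a91b9_ntT.DB.Frob

/-!
# DX: the action on the `ℓ`-th roots of unity (replaces the Weil pairing)

For `g` in `Gal(L/F)` acting as `d` on the point `P₀` of annihilator `(ϖ)`, as `c` on the point `P₂` of
annihilator `(cj ϖ)` and as `x` on the `ℓ`-th roots of unity: `x = c * cj d` modulo `cj ϖ`.

PROOF (complete; stream DX of helper92, top of Theorem D). Jobs ChA (`exists_gen`, `chi_frob`), ChB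
(`chi`, `chi_fix`).

ChA. `exists_gen`: a place `v` of `F` of prime norm `p`, `p ≠ 3`; `v0 = v.under (𝓞 K)`: `nrm v = nrm v0 ^ f`,
so `f = 1` and `nrm v0 = p`. `v0 = (b)` (`𝓞 K` is a principal ideal domain: see S4 (PsiDef: `psi`, the
generator congruent to `1` modulo `3`), or S3), `3 ∤ b`; among the unit multiples of `b` there is one
congruent to `1` modulo `3` (`S4.psi`). So `Deg1 β p` and `β ∈ v`: `v.valuation F β < 1`.
`chi_frob`: let `v` be a place of `F` of prime norm `p`, not above `3` and not above `ℓ`, `W` above `v`, `φ` a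
Frobenius element at `W` (`CF.IsFr v W φ`: `φ • x - x ^ p ∈ W`). `β` from `exists_gen`, `W β < 1`
(`val_map_lt`). `q • P₀ = 0` (`ϖ ∣ q` by `pd_mul_cj`, `sm_nat`), the same for `P₂` (`cj ϖ ∣ q`), `q` is prime
to `3` and `W q = 1` (`q` is a power of `ℓ`). `frob_sm` (with `N := L`, `k := F`, `n := q`): `ga φ (up L P₀) =
sm L β (up L P₀)` and the same for `P₂`; so `ϖ ∣ d - β`, `cj ϖ ∣ c - β` (`Ord.sm_eq_iff`, `ord_up`). `φ ζ =
ζ ^ p` (`CF.IsFr.zeta` with `q := ℓ`), so `ζ ^ x = ζ ^ p`, `ℓ ∣ x - p` (`IsPrimitiveRoot.pow_eq_pow_iff_..`,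
`zeta.pow_inj` modulo), hence `cj ϖ ∣ x - p` (`pd_cj`: `cj ϖ ∣ ℓ`). `p = β * cj β` (`mul_cj`, `Deg1.norm`).
`x - c * cj d = (x - p) + (β - c) cj β + c cj (β - d)`, and `ϖ ∣ β - d` gives `cj ϖ ∣ cj (β - d)`.

ChB. Let `H` be the set of the `g` in `Gal(L/F)` such that `cj ϖ ∣ x - c * cj d` for all `c, d, x` with
`ga g (up L P₀) = sm d .., ga g (up L P₂) = sm c .., g ζ = ζ ^ x`. It is the kernel of a homomorphism to
the units of the field `𝓞 K/(cj ϖ)`: for given `g` the classes of `d` modulo `ϖ`, `c` modulo `cj ϖ`, `x` modulo `ℓ`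
exist (`exists_d`, `exists_c`, `exists_x`) and are unique, they are multiplicative
(`ga_mul`, `ga_sm`: `ga (g h) P = ga g (sm d' P) = sm d' (sm d P)`, `sm` a ring homomorphism to a ring of
endomorphisms, `𝓞 K` commutative; `(g h) ζ = ζ ^ (x x')`); `g ∈ H` iff `x = c cj d` modulo `cj ϖ`.
So `H` is a subgroup: closed under products: `x x' - c c' cj (d d') = (x - c cj d) x' + c cj d (x' - c' cj
d')`; inverses: `g⁻¹` has classes inverse to those of `g` (from `g g⁻¹ = 1`: `cj ϖ` prime). Normal: the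
classes of `h g h⁻¹` are those of `g` (the classes commute). `top_of_frob` with `S` = the places
above `3` and above `ℓ` (finite: `od_finite` for the elements `3`, `ℓ`) and `chi_frob`: `H = ⊤`.
`chi_fix`: if `g` fixes `up L P₀` and `up L P₂`: `c = d = 1`, `cj ϖ ∣ x - 1`, so `ℓ ∣ x - 1` (`PD.dvd_int_iff`
for `pd_cj`), `g ζ = ζ`.
-/

set_option autoImplicit false

namespace Pool.Agent.Lib.MP_1a91b9_ntT.DX

open NumberField IsDedekindDomain WeierstrassCurve DB Pool.Agent.Lib.MP_1a91b9_nt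

universe u

/-- a generator congruent to `1` modulo `3` of the prime ideal below a place of prime norm -/
theorem exists_gen {F : Type u} [Field F] [NumberField F] [Algebra K F]
    (v : HeightOneSpectrum (𝓞 F)) (hv : (nrm v).Prime) (h3 : v.valuation F (3 : F) = 1) :
    ∃ β : 𝓞 K, Deg1 β (nrm v) ∧ v.valuation F (algebraMap K F (β : K)) < 1 := by
  have h3' : (3 : 𝓞 F) ∉ v.asIdeal := by
    intro h
    have h1 : v.valuation F (algebraMap (𝓞 F) F (3 : 𝓞 F)) < 1 :=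
      (v.valuation_lt_one_iff_mem (K := F) (3 : 𝓞 F)).2 h
    rw [map_ofNat] at h1
    exact absurd h3 h1.ne
  obtain ⟨γ, h1, h2, -, -⟩ := S4.exists_psi v h3'
  refine ⟨γ, ⟨hv, ?_, h1⟩, ?_⟩
  · rw [h2, nrm_eq]
    exact Ideal.absNorm_relNorm (𝓞 K) (𝓞 F) v.asIdeal
  · have h4 : γ ∈ Ideal.relNorm (𝓞 K) v.asIdeal := by
      rw [← h2]
      exact Ideal.mem_span_singleton_self γ
    have h5 : algebraMap (𝓞 K) (𝓞 F) γ ∈ v.asIdeal := Ideal.relNorm_le_comap (𝓞 K) v.asIdeal h4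
    have h6 : v.valuation F (algebraMap (𝓞 F) F (algebraMap (𝓞 K) (𝓞 F) γ)) < 1 :=
      (v.valuation_lt_one_iff_mem (K := F) _).2 h5
    have e : algebraMap (𝓞 F) F (algebraMap (𝓞 K) (𝓞 F) γ) = algebraMap K F (γ : K) := by
      rw [← IsScalarTower.algebraMap_apply (𝓞 K) (𝓞 F) F,
        IsScalarTower.algebraMap_apply (𝓞 K) K F]
    rw [e] at h6
    exact h6

private theorem chb_zeta {L : Type*} [Field L] {ζ : L} {ℓ : ℕ} (hζ : IsPrimitiveRoot ζ ℓ)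
    (hl : ℓ ≠ 0) {x y : ℕ} (h : ζ ^ x = ζ ^ y) : (ℓ : ℤ) ∣ (x : ℤ) - y := by
  have h0 : ζ ≠ 0 := hζ.ne_zero hl
  rcases le_total x y with hxy | hxy
  · obtain ⟨k, rfl⟩ := Nat.exists_eq_add_of_le hxy
    rw [pow_add] at h
    have h1 : ζ ^ k = 1 := (mul_right_eq_self₀.1 h.symm).resolve_right (pow_ne_zero _ h0)
    have h2 : (ℓ : ℤ) ∣ (k : ℤ) := Int.natCast_dvd_natCast.2 (hζ.dvd_of_pow_eq_one k h1)
    push_cast
    rw [sub_add_cancel_left, dvd_neg]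
    exact h2
  · obtain ⟨k, rfl⟩ := Nat.exists_eq_add_of_le hxy
    rw [pow_add] at h
    have h1 : ζ ^ k = 1 := (mul_right_eq_self₀.1 h).resolve_right (pow_ne_zero _ h0)
    have h2 : (ℓ : ℤ) ∣ (k : ℤ) := Int.natCast_dvd_natCast.2 (hζ.dvd_of_pow_eq_one k h1)
    push_cast
    rw [add_sub_cancel_left]
    exact h2

section
variable {F N N₂ L : Type u} [Field F] [NumberField F] [Algebra K F] [Field N] [NumberField N]
  [Algebra K N] [Field N₂] [NumberField N₂] [Algebra K N₂] [Field L] [NumberField L] [Algebra K L]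
  [Algebra F N] [Algebra F N₂] [Algebra F L] [Algebra N L] [Algebra N₂ L]
  [IsScalarTower K F N] [IsScalarTower K F N₂] [IsScalarTower K F L] [IsScalarTower K N L]
  [IsScalarTower K N₂ L] [IsScalarTower F N L] [IsScalarTower F N₂ L]
  [DecidableEq F] [DecidableEq N] [DecidableEq N₂] [DecidableEq L]
  [IsGalois F N] [IsGalois F N₂] [IsGalois F L]
  {ϖ : 𝓞 K} {ℓ q : ℕ} {P : Pt F} {P₀ : Pt N} {P₂ : Pt N₂} {ζ : L} {Q : Pt L}
  (D : TD ϖ ℓ q P P₀ P₂ ζ Q)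
include D

theorem TD.chi_frob {v : HeightOneSpectrum (𝓞 F)} (hv : (nrm v).Prime)
    (h3 : v.valuation F (3 : F) = 1) (hl : v.valuation F (ℓ : F) = 1)
    {W : HeightOneSpectrum (𝓞 L)} (hW : W.under (𝓞 F) = v) {φ : Gal(L/F)} (hφ : CF.IsFr v W φ)
    {c d : 𝓞 K} {x : ℕ} (hd : ga φ (up L P₀) = sm L d (up L P₀))
    (hc : ga φ (up L P₂) = sm L c (up L P₂)) (hx : φ ζ = ζ ^ x) :
    cj ϖ ∣ (x : 𝓞 K) - c * cj d := by
  subst hW
  obtain ⟨β, hβ, hvβ⟩ := exists_gen (W.under (𝓞 F)) hv h3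
  have hpd := D.pd
  have hpd2 := pd_cj D.pd
  have hWβ : W.valuation L (algebraMap K L (β : K)) < 1 := by
    rw [IsScalarTower.algebraMap_apply K F L, val_map_lt]
    exact hvβ
  have hWl : W.valuation L (ℓ : L) = 1 := by
    have h1 : algebraMap F L (ℓ : F) = (ℓ : L) := map_natCast _ _
    rw [← h1, val_map_eq]
    exact hl
  have hWq : W.valuation L (q : L) = 1 := by
    rcases hpd.alt with h | h
    · rw [h]
      exact hWl
    · rw [h, Nat.cast_pow, map_pow, hWl, one_pow]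
  have hl3 : ℓ.Coprime 3 := by
    rw [Nat.coprime_primes hpd.hl Nat.prime_three]
    have := hpd.five
    omega
  have hq3 : q.Coprime 3 := by
    rcases hpd.alt with h | h
    · rw [h]
      exact hl3
    · rw [h]
      exact Nat.Coprime.pow_left 2 hl3
  have hφ' : ∀ x : 𝓞 L, φ • x - x ^ nrm (W.under (𝓞 F)) ∈ W.asIdeal := hφ
  have ho1 : Ord ϖ (up L P₀) := ord_up L |>.2 D.full.ord
  have ho2 : Ord (cj ϖ) (up L P₂) := ord_up L |>.2 D.full₂.ord
  have hq1 : q • up L P₀ = 0 := by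
    rw [← sm_nat, ho1, ← pd_mul_cj hpd]
    exact dvd_mul_right _ _
  have hq2 : q • up L P₂ = 0 := by
    rw [← sm_nat, ho2, ← pd_mul_cj hpd]
    exact dvd_mul_left _ _
  have hf1 := frob_sm hβ W hWβ φ hφ' hq3 hWq hq1
  have hf2 := frob_sm hβ W hWβ φ hφ' hq3 hWq hq2
  have hdβ : ϖ ∣ d - β := (Ord.sm_eq_iff ho1 d β).1 (hd.symm.trans hf1)
  have hcβ : cj ϖ ∣ c - β := (Ord.sm_eq_iff ho2 c β).1 (hc.symm.trans hf2)
  have hlW : (ℓ : 𝓞 L) ∉ W.asIdeal := by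
    intro h
    have h1 : W.valuation L (algebraMap (𝓞 L) L (ℓ : 𝓞 L)) < 1 :=
      (W.valuation_lt_one_iff_mem (K := L) (ℓ : 𝓞 L)).2 h
    rw [map_natCast] at h1
    exact absurd hWl h1.ne
  have hζp := CF.IsFr.zeta hφ rfl ℓ hlW ζ D.zeta.pow_eq_one
  have hζ0 : ζ ≠ 0 := D.zeta.ne_zero hpd.hl.ne_zero
  have hlx : (ℓ : ℤ) ∣ (x : ℤ) - (nrm (W.under (𝓞 F)) : ℤ) := by
    rw [← D.zeta.zpow_eq_one_iff_dvd, zpow_sub₀ hζ0, zpow_natCast, zpow_natCast, ← hx, ← hζp]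
    exact div_self (by rw [hx]; exact pow_ne_zero _ hζ0)
  have hxp : cj ϖ ∣ (x : 𝓞 K) - (nrm (W.under (𝓞 F)) : 𝓞 K) := by
    obtain ⟨m, hm⟩ := hlx
    have h1 : (x : 𝓞 K) - (nrm (W.under (𝓞 F)) : 𝓞 K) = (ℓ : 𝓞 K) * (m : 𝓞 K) := by
      have h2 := congrArg (Int.cast : ℤ → 𝓞 K) hm
      push_cast at h2
      exact h2
    rw [h1]
    exact Dvd.dvd.mul_right hpd2.dvd _
  have hpβ : (nrm (W.under (𝓞 F)) : 𝓞 K) = β * cj β := by
    rw [mul_cj, hβ.norm]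
  have hcd : cj ϖ ∣ cj (d - β) := cj_dvd_iff.2 hdβ
  have e : (x : 𝓞 K) - c * cj d = ((x : 𝓞 K) - (nrm (W.under (𝓞 F)) : 𝓞 K)) -
      (c - β) * cj β - c * cj (d - β) := by
    rw [map_sub, hpβ]
    ring
  rw [e]
  exact dvd_sub (dvd_sub hxp (Dvd.dvd.mul_right hcβ _)) (Dvd.dvd.mul_left hcd _)

/-- the classes of an automorphism -/
private def ChBDat (P₀ : Pt N) (P₂ : Pt N₂) (ζ : L) (g : Gal(L/F)) (c d : 𝓞 K) (x : ℕ) : Prop :=
  ga g (up L P₀) = sm L d (up L P₀) ∧ ga g (up L P₂) = sm L c (up L P₂) ∧ g ζ = ζ ^ x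

omit [Algebra F N] [Algebra F N₂] [IsScalarTower K F N] [IsScalarTower K F N₂]
  [IsScalarTower F N L] [IsScalarTower F N₂ L] [DecidableEq F] [IsGalois F N] [IsGalois F N₂]
  [IsGalois F L] D in
private theorem chb_one : ChBDat P₀ P₂ ζ (1 : Gal(L/F)) 1 1 1 := by
  refine ⟨?_, ?_, ?_⟩
  · rw [ga_one, map_one]
    rfl
  · rw [ga_one, map_one]
    rfl
  · rw [pow_one]
    rfl

omit [Algebra F N] [Algebra F N₂] [IsScalarTower K F N] [IsScalarTower K F N₂]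
  [IsScalarTower F N L] [IsScalarTower F N₂ L] [DecidableEq F] [IsGalois F N] [IsGalois F N₂]
  [IsGalois F L] D in
private theorem chb_mul {g g' : Gal(L/F)} {c d c' d' : 𝓞 K} {x x' : ℕ}
    (h : ChBDat P₀ P₂ ζ g c d x) (h' : ChBDat P₀ P₂ ζ g' c' d' x') :
    ChBDat P₀ P₂ ζ (g * g') (c' * c) (d' * d) (x * x') := by
  refine ⟨?_, ?_, ?_⟩
  · rw [ga_mul, h'.1, ga_sm, h.1, map_mul]
    rfl
  · rw [ga_mul, h'.2.1, ga_sm, h.2.1, map_mul]
    rfl
  · rw [AlgEquiv.mul_apply, h'.2.2, map_pow, h.2.2, pow_mul]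

private theorem chb_uniq {g : Gal(L/F)} {c d c' d' : 𝓞 K} {x x' : ℕ}
    (h : ChBDat P₀ P₂ ζ g c d x) (h' : ChBDat P₀ P₂ ζ g c' d' x') :
    cj ϖ ∣ ((x : 𝓞 K) - c * cj d) - ((x' : 𝓞 K) - c' * cj d') := by
  have h1 : ϖ ∣ d - d' := ((ord_up L).2 D.full.ord).sm_eq_iff d d' |>.1 (h.1.symm.trans h'.1)
  have h2 : cj ϖ ∣ c - c' :=
    ((ord_up L).2 D.full₂.ord).sm_eq_iff c c' |>.1 (h.2.1.symm.trans h'.2.1)
  have h3 : (ℓ : ℤ) ∣ (x : ℤ) - x' := chb_zeta D.zeta D.pd.hl.ne_zero (h.2.2.symm.trans h'.2.2)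
  have h4 : cj ϖ ∣ (((x : ℤ) - x' : ℤ) : 𝓞 K) := ((pd_cj D.pd).dvd_int_iff _).2 h3
  have h5 : cj ϖ ∣ cj d - cj d' := by
    rw [← map_sub]
    exact cj_dvd_iff.2 h1
  have e : ((x : 𝓞 K) - c * cj d) - ((x' : 𝓞 K) - c' * cj d') =
      (((x : ℤ) - x' : ℤ) : 𝓞 K) - ((c - c') * cj d + c' * (cj d - cj d')) := by
    push_cast
    ring
  rw [e]
  exact dvd_sub h4 (dvd_add (Dvd.dvd.mul_right h2 _) (Dvd.dvd.mul_left h5 _))

private theorem chb_ex (g : Gal(L/F)) : ∃ (c d : 𝓞 K) (x : ℕ), ChBDat P₀ P₂ ζ g c d x ∧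
    ¬ cj ϖ ∣ c ∧ ¬ cj ϖ ∣ cj d := by
  obtain ⟨d, hd0, hd⟩ := D.exists_d g
  obtain ⟨c, hc0, hc⟩ := D.exists_c g
  obtain ⟨x, hx⟩ := D.exists_x g
  exact ⟨c, d, x, ⟨hd, hc, hx⟩, hc0, fun h => hd0 (cj_dvd_iff.1 h)⟩

private theorem chb_iff {g : Gal(L/F)} {c d c' d' : 𝓞 K} {x x' : ℕ}
    (h : ChBDat P₀ P₂ ζ g c d x) (h' : ChBDat P₀ P₂ ζ g c' d' x')
    (h1 : cj ϖ ∣ (x : 𝓞 K) - c * cj d) : cj ϖ ∣ (x' : 𝓞 K) - c' * cj d' := by
  have h2 := chb_uniq D h h'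
  have h3 := dvd_sub h1 h2
  rwa [sub_sub_cancel] at h3

/-- products of inverse classes -/
private theorem chb_inv {g : Gal(L/F)} {c d c' d' : 𝓞 K} {x x' : ℕ}
    (h : ChBDat P₀ P₂ ζ g c d x) (h' : ChBDat P₀ P₂ ζ g⁻¹ c' d' x') :
    cj ϖ ∣ (x : 𝓞 K) * x' - (c * cj d) * (c' * cj d') := by
  have h1 := chb_mul (F := F) (L := L) h h'
  rw [mul_inv_cancel] at h1
  have h2 := chb_iff D (chb_one (F := F) (L := L) (P₀ := P₀) (P₂ := P₂) (ζ := ζ)) h1 (by simp)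
  have e : ((x * x' : ℕ) : 𝓞 K) - c' * c * cj (d' * d) =
      (x : 𝓞 K) * x' - (c * cj d) * (c' * cj d') := by
    push_cast
    rw [map_mul]
    ring
  rwa [e] at h2

/-- the subgroup of the automorphisms satisfying the formula -/
private theorem chb_group : ∃ H : Subgroup Gal(L/F), H.Normal ∧ ∀ g, g ∈ H ↔
    ∀ (c d : 𝓞 K) (x : ℕ), ChBDat P₀ P₂ ζ g c d x → cj ϖ ∣ (x : 𝓞 K) - c * cj d := by
  have hpr : Prime (cj ϖ) := (pd_cj D.pd).prime
  let H : Subgroup Gal(L/F) :=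
    { carrier := {g | ∀ (c d : 𝓞 K) (x : ℕ), ChBDat P₀ P₂ ζ g c d x →
        cj ϖ ∣ (x : 𝓞 K) - c * cj d}
      one_mem' := by
        intro c d x h
        exact chb_iff D (chb_one (F := F) (L := L) (P₀ := P₀) (P₂ := P₂) (ζ := ζ)) h (by simp)
      mul_mem' := by
        intro g g' hg hg' c d x h
        obtain ⟨a, b, y, h1, -, -⟩ := chb_ex D g
        obtain ⟨a', b', y', h1', -, -⟩ := chb_ex D g'
        refine chb_iff D (chb_mul (F := F) (L := L) h1 h1') h ?_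
        have h2 := hg a b y h1
        have h2' := hg' a' b' y' h1'
        have e : ((y * y' : ℕ) : 𝓞 K) - a' * a * cj (b' * b) =
            ((y : 𝓞 K) - a * cj b) * y' + (a * cj b) * ((y' : 𝓞 K) - a' * cj b') := by
          push_cast
          rw [map_mul]
          ring
        rw [e]
        exact dvd_add (Dvd.dvd.mul_right h2 _) (Dvd.dvd.mul_left h2' _)
      inv_mem' := by
        intro g hg c' d' x' h'
        obtain ⟨a, b, y, h1, ha, hb⟩ := chb_ex D g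
        have h2 := hg a b y h1
        have h3 := chb_inv D h1 h'
        have h4 : cj ϖ ∣ (a * cj b) * ((x' : 𝓞 K) - c' * cj d') := by
          have e : (a * cj b) * ((x' : 𝓞 K) - c' * cj d') =
              ((y : 𝓞 K) * x' - (a * cj b) * (c' * cj d')) - ((y : 𝓞 K) - a * cj b) * x' := by
            ring
          rw [e]
          exact dvd_sub h3 (Dvd.dvd.mul_right h2 _)
        rcases hpr.dvd_or_dvd h4 with h5 | h5
        · rcases hpr.dvd_or_dvd h5 with h6 | h6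
          · exact absurd h6 ha
          · exact absurd h6 hb
        · exact h5 }
  refine ⟨H, ⟨?_⟩, fun g => Iff.rfl⟩
  intro g hg h c d x hcd
  obtain ⟨a, b, y, h1, -, -⟩ := chb_ex D g
  obtain ⟨a', b', y', h1', -, -⟩ := chb_ex D h
  obtain ⟨a'', b'', y'', h1'', -, -⟩ := chb_ex D h⁻¹
  refine chb_iff D (chb_mul (F := F) (L := L) (chb_mul (F := F) (L := L) h1' h1) h1'') hcd ?_
  have h2 : cj ϖ ∣ (y : 𝓞 K) - a * cj b := hg a b y h1
  have h3 := chb_inv D h1' h1''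
  have e : ((y' * y * y'' : ℕ) : 𝓞 K) - a'' * (a * a') * cj (b'' * (b * b')) =
      ((y' : 𝓞 K) * y'' - (a' * cj b') * (a'' * cj b'')) * y +
        ((a' * cj b') * (a'' * cj b'')) * ((y : 𝓞 K) - a * cj b) := by
    push_cast
    rw [map_mul, map_mul]
    ring
  rw [e]
  exact dvd_add (Dvd.dvd.mul_right h3 _) (Dvd.dvd.mul_left h2 _)

theorem TD.chi (g : Gal(L/F)) {c d : 𝓞 K} {x : ℕ} (hd : ga g (up L P₀) = sm L d (up L P₀))
    (hc : ga g (up L P₂) = sm L c (up L P₂)) (hx : g ζ = ζ ^ x) :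
    cj ϖ ∣ (x : 𝓞 K) - c * cj d := by
  obtain ⟨H, hN, hH⟩ := chb_group D
  have h3 : (3 : F) ≠ 0 := three_ne
  have hchar : CharZero F := charZero_of_injective_algebraMap (algebraMap K F).injective
  have hl : (ℓ : F) ≠ 0 := by exact_mod_cast D.pd.hl.ne_zero
  have hfin := (od_finite (F := F) h3).union (od_finite (F := F) hl)
  have htop : H = ⊤ := by
    refine top_of_frob H hfin ?_
    intro v hv hp W hW φ hφ
    have hv3 : od v (3 : F) = 0 := by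
      by_contra hne
      exact hv (Or.inl hne)
    have hvl : od v (ℓ : F) = 0 := by
      by_contra hne
      exact hv (Or.inr hne)
    rw [hH]
    intro c d x h
    exact D.chi_frob hp ((val_eq_one_iff v h3).2 hv3) ((val_eq_one_iff v hl).2 hvl) hW hφ
      h.1 h.2.1 h.2.2
  have hg : g ∈ H := by
    rw [htop]
    exact Subgroup.mem_top g
  exact (hH g).1 hg c d x ⟨hd, hc, hx⟩

theorem TD.chi_fix (g : Gal(L/F)) (h0 : ga g (up L P₀) = up L P₀)
    (h2 : ga g (up L P₂) = up L P₂) : g ζ = ζ := by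
  obtain ⟨x, hx⟩ := D.exists_x g
  have h1 := D.chi g (c := 1) (d := 1) (x := x) (by rw [h0, map_one]; rfl)
    (by rw [h2, map_one]; rfl) hx
  rw [map_one, mul_one] at h1
  have h3 : cj ϖ ∣ (((x : ℤ) - 1 : ℤ) : 𝓞 K) := by
    push_cast
    exact h1
  have h4 : (ℓ : ℤ) ∣ (x : ℤ) - (1 : ℕ) := ((pd_cj D.pd).dvd_int_iff _).1 (by exact_mod_cast h3)
  have h5 : 1 ≡ x [MOD ℓ] := (Nat.modEq_iff_dvd).2 h4
  rw [hx, ← pow_eq_pow_of_modEq h5 D.zeta.pow_eq_one, pow_one]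

end

end Pool.Agent.Lib.MP_1a91b9_ntT.DX
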