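import Pool.Agent.Lib.MP_1a91b9_ntT.DX.Defs

/-!
# DX: the local parameter of a difference, saturation of the kernel of reduction

PROOF (complete; stream DX of helper92, top of Theorem D). Jobs SaA (`tc_sub`), SaB (`ker_of_sm`,
`ker_sat`), SaC (`exists_nsmul_ker`, `exists_coprime_ker`).

SaA `tc_sub`. If `A = B` both sides are `v 0`. If `A = 0`: `v (tc (-B)) = v (tc B)`: `B = (x, y)`,
`-B = (x, -y-1)`, `v (y + 1) = v y` as `v y > 1` (`neg_mk`, `ker_val`). If `B = 0` clear. Let `A, B ≠ 0`,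
`A ≠ B`, `t_i` the local parameters, `w_i = -1/y_i`: `w_i = t_i^3 + w_i^2`, `v w_i = v t_i^3`,
`x_i = t_i/w_i` (`ker_w`). `r = max (v t_1) (v t_2) < 1`, `δ = t_1 - t_2`.
Case 1: `v δ = r`. `v (tc(-B) + t_2) ≤ r^4` (`tc(-B) = x/(y+1) = -t_2/(1 - w_2)`) and `ker_add` for `A`,
`-B`: `v (tc (A - B) - t_1 - tc(-B)) ≤ r^4`, so `v (tc (A - B) - δ) ≤ r^4 < r = v δ` (`r ≠ 0`).
Case 2: `v δ < r`. Then `v t_1 = v t_2 = r`. `δ ≠ 0` (from `(w_1 - w_2)(1 - w_1 - w_2) = (t_1 - t_2)(t_1^2 +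
t_1 t_2 + t_2^2)` and `v (1 - w_1 - w_2) = 1`: `δ = 0` gives `w_1 = w_2`, so `A = B`). Put
`α = (t_1^2 + t_1 t_2 + t_2^2)/(1 - w_1 - w_2)`, so `w_1 - w_2 = δ α`, and `γ = w_1 - α t_1`.
`t_1^2 + t_1 t_2 + t_2^2 = 3 t_1^2 - 3 t_1 δ + δ^2`, hence `v (α - 3 t_1^2) < r^2`, `v (w_1 - t_1^3) =
v w_1^2 < r^3`, so `v (γ + 2 t_1^3) < r^3`, `v γ = r^3` (`v 2 = 1`). Also `v (w_1 + w_2 - w_1 w_2 - 2 t_1^3) <
r^3`, so its value is `r^3`. `t_1 w_2 - t_2 w_1 = t_1 (w_2 - w_1) + δ w_1 = δ γ`, so `x_1 - x_2 =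
δ γ/(w_1 w_2) ≠ 0`; `y_1 + y_2 + 1 = -(w_1 + w_2 - w_1 w_2)/(w_1 w_2)`. `A - B = A + (x_2, -y_2 - 1)`:
slope `m = (y_1 + y_2 + 1)/(x_1 - x_2)` has `v m = (v δ)⁻¹`, abscissa `m^2 - x_1 - x_2` (`mk_add`,
`neg_mk`) of value `(v δ)^(-2) > r^(-2) = v x_i`. So `A - B` is in the kernel, and `v x * v tc^2 = 1`
(`ker_tc`) gives `v (tc (A - B)) = v δ` (squares are injective in a linearly ordered group with zero,
`pow_left_injective`..).

SaB `ker_of_sm`. `F` is a number field, `f : F →ₐ[K] ℂ` from `exists_emb`, `T` from `exists_isRes`. By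
contradiction let `Q` be not in the kernel. `R` is in the kernel (`ker_of_val`), also `sm a R` (`ker_sm`).
If `sm β Q = 0` then `Q = sm c R` (`ord_cases`) is in the kernel. So `sm β Q ≠ 0` is in the kernel,
`1 < v (yc (sm β Q))` (`ker_iff_y`), in particular `yc (sm β Q) ≠ 0`; `dist_two`: `yc (sm β Q) * Π yc (S +
sm a R) = yc Q * Π yc (Q + sm a R)`. The factors `yc (S + sm a R)` have `v = 1` (`yS_unit`), and `Q`,
`Q + sm a R` (`add_ker`) are not in the kernel so their ordinates have `v ≤ 1` (`not_ker`):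
contradiction. `ker_sat`: over `F` without the point `R`: take `L/F` from `exists_ext` (`k0 = k = F`) and a
place `W` of `L` above `v` (`CF.exists_over`), `ker_up`, `up_sm`; `val_map_lt` for `β`.

SaC `exists_nsmul_ker`. `v 3 = 1` at a place `v` of the number field `F`. Among the points `i • P`,
`i : ℕ`: if some `i • P`, `i > 0`, is in the kernel, done. Otherwise their coordinates (`i > 0`) are integral at
`v` (`not_ker`), congruent to integers of `F` (`exists_val_lt_of_int` with `n = 1`), and the residue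
ring `𝓞 F/v` is finite: two of them, `i < j`, have the same reductions, `red_inj`: `i • P - j • P` is in
the kernel, also `(j - i) • P` (`ker_neg`). `exists_coprime_ker`: `cj ϖ = ϖ`. At one place `v` with `v ϖ < 1`:
`v 3 = 1` (`pd_val_three`), let `n > 0` be minimal with `n • P` in the kernel (`Nat.find`); if
`n = ℓ m` then `ℓ = ± ϖ` (`pd_cases`: `q = ℓ^2`, `pd_mul_cj`: `ϖ^2 = ℓ^2`), `n • P = ± sm ϖ (m • P)` so
`m • P` is in the kernel by `ker_sat`, contradiction with minimality. So `n` is prime to `ℓ`. There are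
finitely many such places (`od_finite`): the product of the numbers `n` (`ker_nsmul`).
-/

set_option autoImplicit false

namespace Pool.Agent.Lib.MP_1a91b9_ntT.DX

open NumberField IsDedekindDomain WeierstrassCurve DB

universe u

section
variable {F : Type*} [Field F] {Γ : Type*}
  [LinearOrderedCommGroupWithZero Γ] (v : Valuation F Γ)

private theorem saa_key (h2 : v (2 : F) = 1) (h3 : v (3 : F) ≤ 1) {t1 t2 w1 w2 : F} {r : Γ} (hr0 : 0 < r) (hr1 : r < 1)
    (ht1 : v t1 = r) (hw1 : v w1 = r ^ 3) (hw2 : v w2 = r ^ 3)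
    (e1 : w1 = t1 ^ 3 + w1 ^ 2) (e2 : w2 = t2 ^ 3 + w2 ^ 2) (hd : v (t1 - t2) < r) :
    v (t1 * w2 - t2 * w1) = v (t1 - t2) * r ^ 3 ∧ v (w1 + w2 - w1 * w2) = r ^ 3 := by
  have hr3 : (0 : Γ) < r ^ 3 := pow_pos hr0 3
  have hr31 : r ^ 3 < 1 := pow_lt_one₀ hr0.le hr1 (by norm_num)
  have h6 : r ^ 3 * r ^ 3 < r ^ 3 := by
    calc r ^ 3 * r ^ 3 < r ^ 3 * 1 := mul_lt_mul_of_pos_left hr31 hr3
      _ = r ^ 3 := mul_one _
  set d := t1 - t2 with hdd
  have hd2 : v d * v d < r ^ 2 := by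
    rw [pow_two]
    exact mul_lt_mul'' hd hd zero_le zero_le
  have hA : v (3 * t1 ^ 2 * d) < r ^ 3 := by
    rw [map_mul, map_mul, map_pow, ht1]
    calc v 3 * r ^ 2 * v d ≤ 1 * r ^ 2 * v d := by gcongr
      _ = r ^ 2 * v d := by rw [one_mul]
      _ < r ^ 2 * r := mul_lt_mul_of_pos_left hd (pow_pos hr0 2)
      _ = r ^ 3 := by exact (pow_succ r 2).symm
  have hB : v (t1 * d ^ 2) < r ^ 3 := by
    rw [map_mul, map_pow, ht1, pow_two]
    calc r * (v d * v d) < r * r ^ 2 := mul_lt_mul_of_pos_left hd2 hr0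
      _ = r ^ 3 := (pow_succ' r 2).symm
  have hB3 : v (3 * t1 * d ^ 2) < r ^ 3 := by
    have : (3 * t1 * d ^ 2 : F) = 3 * (t1 * d ^ 2) := by ring
    rw [this, map_mul]
    calc v 3 * v (t1 * d ^ 2) ≤ 1 * v (t1 * d ^ 2) := by gcongr
      _ = v (t1 * d ^ 2) := one_mul _
      _ < r ^ 3 := hB
  have hC : v (d ^ 3) < r ^ 3 := by
    rw [map_pow]
    exact pow_lt_pow_left₀ hd zero_le (by norm_num)
  have hW : v (w1 * w2) < r ^ 3 := by rw [map_mul, hw1, hw2]; exact h6
  have hW1 : v (w1 ^ 2) < r ^ 3 := by rw [map_pow, hw1, pow_two]; exact h6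
  have hW2 : v (w2 ^ 2) < r ^ 3 := by rw [map_pow, hw2, pow_two]; exact h6
  have hT : v (2 * t1 ^ 3) = r ^ 3 := by rw [map_mul, map_pow, h2, ht1, one_mul]
  have hu : v (1 - w1 - w2) = 1 := by
    have : v ((w1 + w2)) < 1 := v.map_add_lt (hw1 ▸ hr31) (hw2 ▸ hr31)
    have h4 : (1 - w1 - w2 : F) = 1 + -(w1 + w2) := by ring
    rw [h4]
    have h5 : v (-(w1 + w2)) < v (1 : F) := by rw [v.map_neg, map_one]; exact this
    rw [v.map_add_eq_of_lt_left h5, map_one]
  constructor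
  · have hg : v ((1 - w1 - w2) * w1 - t1 * (t1 ^ 2 + t1 * t2 + t2 ^ 2)) = r ^ 3 := by
      have hid : (1 - w1 - w2) * w1 - t1 * (t1 ^ 2 + t1 * t2 + t2 ^ 2)
          = -(2 * t1 ^ 3) + (-(w1 * w2) + 3 * t1 ^ 2 * d + -(t1 * d ^ 2)) := by
        rw [hdd]; linear_combination e1
      rw [hid]
      have hlt : v (-(w1 * w2) + 3 * t1 ^ 2 * d + -(t1 * d ^ 2)) < v (-(2 * t1 ^ 3)) := by
        rw [v.map_neg (2 * t1 ^ 3), hT]
        apply v.map_add_lt
        · apply v.map_add_lt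
          · rw [v.map_neg]; exact hW
          · exact hA
        · rw [v.map_neg]; exact hB
      rw [v.map_add_eq_of_lt_left hlt, v.map_neg, hT]
    have hid2 : (1 - w1 - w2) * (t1 * w2 - t2 * w1)
        = d * ((1 - w1 - w2) * w1 - t1 * (t1 ^ 2 + t1 * t2 + t2 ^ 2)) := by
      rw [hdd]; linear_combination (-t1) * e1 + t1 * e2
    have h7 := congrArg v hid2
    rw [map_mul, map_mul, hu, one_mul, hg] at h7
    exact h7
  · have hid : w1 + w2 - w1 * w2 = 2 * t1 ^ 3 +
        (w1 ^ 2 + w2 ^ 2 + -(w1 * w2) + -(3 * t1 ^ 2 * d) + 3 * t1 * d ^ 2 + -(d ^ 3)) := by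
      rw [hdd]; linear_combination e1 + e2
    rw [hid]
    have hlt : v (w1 ^ 2 + w2 ^ 2 + -(w1 * w2) + -(3 * t1 ^ 2 * d) + 3 * t1 * d ^ 2 + -(d ^ 3))
        < v (2 * t1 ^ 3) := by
      rw [hT]
      refine v.map_add_lt (v.map_add_lt (v.map_add_lt (v.map_add_lt (v.map_add_lt hW1 hW2) ?_) ?_) hB3) ?_
      · rw [v.map_neg]; exact hW
      · rw [v.map_neg]; exact hA
      · rw [v.map_neg]; exact hC
    rw [v.map_add_eq_of_lt_left hlt, hT]

end

section
variable {F : Type*} [Field F] [Algebra K F] [DecidableEq F] {Γ : Type*}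
  [LinearOrderedCommGroupWithZero Γ] (v : Valuation F Γ)

/-- the abscissa of a difference -/
private theorem saa_xc {A B : Pt F} (hA : A ≠ 0) (hB : B ≠ 0) (hx : xc A ≠ xc B) :
    A - B ≠ 0 ∧ xc (A - B) = ((yc A + yc B + 1) / (xc A - xc B)) ^ 2 - xc A - xc B := by
  obtain ⟨h1, e1⟩ := exists_mk hA
  obtain ⟨h2, e2⟩ := exists_mk hB
  have h2' : (-yc B - 1) ^ 2 + (-yc B - 1) = xc B ^ 3 := by linear_combination h2
  have hneg : -B = mkPt (xc B) (-yc B - 1) h2' := by
    conv_lhs => rw [e2]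
    exact neg_mk _ _ h2
  obtain ⟨h, e⟩ := mk_add (xc A) (yc A) (xc B) (-yc B - 1) h1 h2' hx
  have hAB : A - B = mkPt (xc A) (yc A) h1 + mkPt (xc B) (-yc B - 1) h2' := by
    rw [← e1, ← hneg, sub_eq_add_neg]
  rw [hAB, e]
  refine ⟨mk_ne_zero _ _ _, ?_⟩
  rw [xc_mk]
  have : yc A - (-yc B - 1) = yc A + yc B + 1 := by ring
  rw [this]

omit [DecidableEq F] in
private theorem saa_negtc {B : Pt F} (hB : Ker v B) (hB0 : B ≠ 0) :
    v (tc (-B)) = v (tc B) ∧ v (tc (-B) + tc B) ≤ v (tc B) ^ 4 := by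
  obtain ⟨w1, w2, w3⟩ := ker_w v hB hB0
  obtain ⟨k1, k2, k3, k4⟩ := ker_tc v hB hB0
  obtain ⟨h2, e2⟩ := exists_mk hB0
  have h2' : (-yc B - 1) ^ 2 + (-yc B - 1) = xc B ^ 3 := by linear_combination h2
  have hneg : -B = mkPt (xc B) (-yc B - 1) h2' := by
    conv_lhs => rw [e2]
    exact neg_mk _ _ h2
  set t := tc B with ht
  set w := -1 / yc B with hw
  have hw1 : v w < 1 := by
    rw [w2]
    exact pow_lt_one₀ zero_le k1 (by norm_num)
  have hw0 : w ≠ 0 := by
    intro h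
    rw [h, map_zero] at w2
    exact k2 (eq_zero_of_pow_eq_zero w2.symm)
  have hy0 : yc B ≠ 0 := by
    intro h
    rw [hw, h, div_zero] at hw0
    exact hw0 rfl
  have hy : yc B = -1 / w := by
    rw [hw]
    field_simp
  have hu : v (1 - w) = 1 := by
    have h4 : (1 - w : F) = 1 + -w := by ring
    have h5 : v (-w) < v (1 : F) := by rw [v.map_neg, map_one]; exact hw1
    rw [h4, v.map_add_eq_of_lt_left h5, map_one]
  have hu0 : (1 - w : F) ≠ 0 := by
    intro h
    rw [h, map_zero] at hu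
    exact zero_ne_one hu
  have hC : tc (-B) = -(t / (1 - w)) := by
    rw [tc, hneg, xc_mk, yc_mk, w3, hy]
    have : (-(-1 / w) - 1 : F) = (1 - w) / w := by
      field_simp
    rw [this]
    field_simp
  constructor
  · rw [hC, v.map_neg, map_div₀, hu, div_one]
  · have : tc (-B) + t = -(t * w / (1 - w)) := by
      rw [hC]
      field_simp
      ring
    rw [this, v.map_neg, map_div₀, hu, div_one, map_mul, w2]
    exact le_of_eq (pow_succ' (v t) 3).symm

/-- the local parameter of a difference in the kernel of reduction -/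
theorem tc_sub (h2 : v (2 : F) = 1) {A B : Pt F} (hA : Ker v A) (hB : Ker v B) :
    v (tc (A - B)) = v (tc A - tc B) := by
  by_cases hAB : A = B
  · rw [hAB, sub_self, sub_self, tc_zero]
  by_cases hA0 : A = 0
  · by_cases hB0 : B = 0
    · exact absurd (hA0.trans hB0.symm) hAB
    rw [hA0, zero_sub, tc_zero, zero_sub, v.map_neg]
    exact (saa_negtc v hB hB0).1
  by_cases hB0 : B = 0
  · rw [hB0, sub_zero, tc_zero, sub_zero]
  have h3 : v (3 : F) ≤ 1 := by
    have := v_nat_le v 3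
    exact_mod_cast this
  obtain ⟨a1, a2, a3⟩ := ker_w v hA hA0
  obtain ⟨b1, b2, b3⟩ := ker_w v hB hB0
  obtain ⟨ka1, ka2, ka3, ka4⟩ := ker_tc v hA hA0
  obtain ⟨kb1, kb2, kb3, kb4⟩ := ker_tc v hB hB0
  obtain ⟨n1, n2⟩ := saa_negtc v hB hB0
  set r : Γ := max (v (tc A)) (v (tc B)) with hr
  have hr1 : r < 1 := max_lt ka1 kb1
  have hr0 : 0 < r := lt_of_lt_of_le (zero_lt_iff.2 ka2) (le_max_left _ _)
  have hr4 : r ^ 4 < r := by
    calc r ^ 4 = r * r ^ 3 := pow_succ' r 3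
      _ < r * 1 := mul_lt_mul_of_pos_left (pow_lt_one₀ hr0.le hr1 (by norm_num)) hr0
      _ = r := mul_one r
  have hle : v (tc A - tc B) ≤ r := v.map_sub _ _
  rcases hle.eq_or_lt with hd | hd
  · have e1 := (ker_add v hA (ker_neg v hB)).2
    rw [n1, ← hr, ← sub_eq_add_neg] at e1
    have e2 : v (tc (-B) + tc B) ≤ r ^ 4 := n2.trans (pow_le_pow_left₀ zero_le (le_max_right _ _) 4)
    have e3 : v (tc (A - B) - (tc A - tc B)) ≤ r ^ 4 := by
      have : tc (A - B) - (tc A - tc B) = (tc (A - B) - tc A - tc (-B)) + (tc (-B) + tc B) := by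
        ring
      rw [this]
      exact v.map_add_le e1 e2
    exact v.map_eq_of_sub_lt (lt_of_le_of_lt e3 (hr4.trans_eq hd.symm))
  · have hvt1 : v (tc A) = r := by
      rcases lt_trichotomy (v (tc A)) (v (tc B)) with h | h | h
      · exfalso
        have h7 : v (tc A - tc B) = v (tc B) := v.map_sub_eq_of_lt_right h
        rw [h7, hr, max_eq_right h.le] at hd
        exact lt_irrefl _ hd
      · rw [hr, ← h, max_self]
      · rw [hr, max_eq_left h.le]
    have hvt2 : v (tc B) = r := by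
      rcases lt_trichotomy (v (tc A)) (v (tc B)) with h | h | h
      · rw [hr, max_eq_right h.le]
      · rw [hr, h, max_self]
      · exfalso
        have h7 : v (tc A - tc B) = v (tc A) := v.map_sub_eq_of_lt_left h
        rw [h7, hr, max_eq_left h.le] at hd
        exact lt_irrefl _ hd
    have hvw1 : v (-1 / yc A) = r ^ 3 := by rw [a2, hvt1]
    have hvw2 : v (-1 / yc B) = r ^ 3 := by rw [b2, hvt2]
    obtain ⟨k1, k2⟩ := saa_key v h2 h3 hr0 hr1 hvt1 hvw1 hvw2 a1 b1 hd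
    have hr30 : r ^ 3 ≠ 0 := (pow_pos hr0 3).ne'
    set w1 := -1 / yc A with hw1
    set w2 := -1 / yc B with hw2
    have hw10 : w1 ≠ 0 := by
      intro h
      rw [h, map_zero] at hvw1
      exact hr30 hvw1.symm
    have hw20 : w2 ≠ 0 := by
      intro h
      rw [h, map_zero] at hvw2
      exact hr30 hvw2.symm
    have hyA0 : yc A ≠ 0 := by
      intro h
      rw [hw1, h, div_zero] at hw10
      exact hw10 rfl
    have hyB0 : yc B ≠ 0 := by
      intro h
      rw [hw2, h, div_zero] at hw20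
      exact hw20 rfl
    have hyA : yc A = -1 / w1 := by rw [hw1]; field_simp
    have hyB : yc B = -1 / w2 := by rw [hw2]; field_simp
    have hd0 : v (tc A - tc B) ≠ 0 := by
      intro h
      rw [h, zero_mul] at k1
      have h8 : tc A - tc B = 0 := (v.zero_iff).1 h
      have h9 : tc A * w2 - tc B * w1 = 0 := (v.zero_iff).1 k1
      have h10 : tc A = tc B := sub_eq_zero.1 h8
      have htA : tc A ≠ 0 := fun h => ka2 (by rw [h, map_zero])
      have h11 : w1 = w2 := by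
        have : tc A * (w2 - w1) = 0 := by rw [← h10] at h9; linear_combination h9
        rcases mul_eq_zero.1 this with h | h
        · exact absurd h htA
        · exact (sub_eq_zero.1 h).symm
      exact hAB (pt_ext hA0 hB0 (by rw [a3, b3, h10, h11]) (by rw [hyA, hyB, h11]))
    have hs0 : tc A * w2 - tc B * w1 ≠ 0 := by
      intro h
      rw [h, map_zero] at k1
      exact mul_ne_zero hd0 hr30 k1.symm
    have hxd : xc A - xc B = (tc A * w2 - tc B * w1) / (w1 * w2) := by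
      rw [a3, b3]
      field_simp
    have hxne : xc A ≠ xc B := by
      intro h
      rw [h, sub_self] at hxd
      exact (div_ne_zero hs0 (mul_ne_zero hw10 hw20)) hxd.symm
    obtain ⟨hne, hX⟩ := saa_xc hA0 hB0 hxne
    have hm : (yc A + yc B + 1) / (xc A - xc B) =
        -((w1 + w2 - w1 * w2) / (tc A * w2 - tc B * w1)) := by
      rw [hxd, hyA, hyB]
      field_simp
      ring
    have hvm : v ((yc A + yc B + 1) / (xc A - xc B)) = (v (tc A - tc B))⁻¹ := by
      rw [hm, v.map_neg, map_div₀, k1, k2]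
      rw [mul_comm, div_mul_eq_div_div, div_self hr30, one_div]
    have hvx : ∀ P : Pt F, v (tc P) = r → v (xc P) * v (tc P) ^ 2 = 1 → v (xc P) = (r ^ 2)⁻¹ := by
      intro P hP h
      rw [hP] at h
      exact eq_inv_of_mul_eq_one_left h
    have hxA := hvx A hvt1 ka3
    have hxB := hvx B hvt2 kb3
    have hlt : (r ^ 2)⁻¹ < v (((yc A + yc B + 1) / (xc A - xc B)) ^ 2) := by
      rw [map_pow, hvm, ← inv_pow]
      apply pow_lt_pow_left₀ _ zero_le (by norm_num)
      exact inv_strictAnti₀ (zero_lt_iff.2 hd0) hd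
    have hvX : v (xc (A - B)) = ((v (tc A - tc B))⁻¹) ^ 2 := by
      have h12 : v (((yc A + yc B + 1) / (xc A - xc B)) ^ 2 - xc A) =
          v (((yc A + yc B + 1) / (xc A - xc B)) ^ 2) :=
        v.map_sub_eq_of_lt_left (by rw [hxA]; exact hlt)
      rw [hX, v.map_sub_eq_of_lt_left (by rw [h12, hxB]; exact hlt), h12, map_pow, hvm]
    have hK : Ker v (A - B) := ker_sub v hA hB
    have h13 := (ker_tc v hK hne).2.2.1
    rw [hvX] at h13
    have h14 : v (tc (A - B)) ^ 2 = v (tc A - tc B) ^ 2 := by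
      have h15 : v (tc A - tc B) ^ 2 ≠ 0 := pow_ne_zero 2 hd0
      rw [inv_pow] at h13
      have := eq_inv_of_mul_eq_one_right h13
      rw [this, inv_inv]
    exact (pow_left_inj₀ zero_le zero_le (by norm_num)).1 h14

end

section
variable {F : Type u} [Field F] [NumberField F] [Algebra K F] [DecidableEq F] {β : 𝓞 K}
  {Γ : Type*} [LinearOrderedCommGroupWithZero Γ] (v : Valuation F Γ)

/-- the kernel of reduction is saturated with respect to a prime element of the residue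
characteristic -/
theorem ker_of_sm (hβ : Prime β) (hβ1 : (3 : 𝓞 K) ∣ β - 1) {R : Pt F} (hR : Ord β R)
    (hv : v (algebraMap K F (β : K)) < 1) {Q : Pt F} (hQ : Ker v (sm F β Q)) : Ker v Q := by
  by_contra hQ0
  have hβ0 : β ≠ 0 := hβ.ne_zero
  obtain ⟨f⟩ := exists_emb F
  have hRK : Ker v R := ker_of_val v hβ hβ1 hR hv
  obtain ⟨T, hT, -⟩ := exists_isRes hβ0
  by_cases h0 : sm F β Q = 0
  · obtain ⟨c, rfl⟩ := ord_cases f hβ0 hR h0
    exact hQ0 (ker_sm v hRK c)
  have h1 : 1 < v (xc (sm F β Q)) := hQ.resolve_left h0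
  have h2 : 1 < v (yc (sm F β Q)) := (ker_iff_y v h0).1 h1
  have h3 : yc (sm F β Q) ≠ 0 := by
    intro h
    rw [h, map_zero] at h2
    exact absurd h2 (not_lt.2 zero_le)
  have h4 := congrArg v (dist_two f hβ0 hβ1 hT hR h0 h3)
  rw [map_mul, map_mul, map_prod, map_prod] at h4
  have h5 : ∏ a ∈ T, v (yc (ptS F + sm F a R)) = 1 :=
    Finset.prod_eq_one fun a ha => yS_unit v hβ hβ1 hR (hT.nz a ha)
  have h6 : ∏ a ∈ T, v (yc (Q + sm F a R)) ≤ 1 :=
    Finset.prod_le_one' fun a _ =>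
      (not_ker v (add_ker v hQ0 (ker_sm v hRK a)).1).2.2
  rw [h5, mul_one] at h4
  rw [h4] at h2
  exact absurd h2 (not_lt.2 (mul_le_one' (not_ker v hQ0).2.2 h6))

end

section
variable {F : Type u} [Field F] [NumberField F] [Algebra K F] [DecidableEq F]

omit [Algebra K F] [DecidableEq F] in
private theorem sab_exists_over (N : Type u) [Field N] [NumberField N] [Algebra F N]
    (v : HeightOneSpectrum (𝓞 F)) : ∃ W : HeightOneSpectrum (𝓞 N), W.under (𝓞 F) = v := by
  obtain ⟨P, hPm, hP⟩ := Ideal.exists_maximal_ideal_liesOver_of_isIntegral (S := 𝓞 N) v.asIdeal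
  refine ⟨⟨P, hPm.isPrime, ?_⟩, ?_⟩
  · intro hb
    apply v.ne_bot
    rw [hP.over, hb]
    exact Ideal.comap_bot_of_injective _ (FaithfulSMul.algebraMap_injective (𝓞 F) (𝓞 N))
  · apply HeightOneSpectrum.ext
    exact hP.over.symm

theorem ker_sat {β : 𝓞 K} (hβ : Prime β) (hβ1 : (3 : 𝓞 K) ∣ β - 1)
    (v : HeightOneSpectrum (𝓞 F)) (hv : v.valuation F (algebraMap K F (β : K)) < 1) {Q : Pt F}
    (hQ : Ker (v.valuation F) (sm F β Q)) : Ker (v.valuation F) Q := by
  classical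
  obtain ⟨L, _, _, _, _, _, _, _, _, _, _, R, hR, _⟩ := exists_ext F F hβ hβ1
  obtain ⟨W, rfl⟩ := sab_exists_over L v
  rw [← ker_up L W] at hQ ⊢
  rw [up_sm] at hQ
  refine ker_of_sm (W.valuation L) hβ hβ1 hR ?_ hQ
  rw [IsScalarTower.algebraMap_apply K F L, val_map_lt]
  exact hv

end

section
variable {F : Type u} [Field F] [NumberField F] [Algebra K F] [DecidableEq F]

theorem exists_nsmul_ker (v : HeightOneSpectrum (𝓞 F)) (h3 : v.valuation F (3 : F) = 1)
    (P : Pt F) : ∃ n : ℕ, 0 < n ∧ Ker (v.valuation F) (n • P) := by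
  by_contra hcon
  push Not at hcon
  have hfin : Finite (𝓞 F ⧸ v.asIdeal) := Ideal.finiteQuotientOfFreeOfNeBot _ v.ne_bot
  have hexp : WithZero.exp (-((1 : ℕ) : ℤ)) < (1 : WithZero (Multiplicative ℤ)) := by
    rw [← WithZero.exp_zero, WithZero.exp_lt_exp]
    norm_num
  have hX : ∀ n : ℕ, ∃ x : 𝓞 F, v.valuation F (xc ((n + 1) • P) - (x : F)) < 1 := by
    intro n
    obtain ⟨x, hx⟩ := exists_val_lt_of_int v (not_ker _ (hcon (n + 1) n.succ_pos)).2.1 1
    exact ⟨x, lt_of_le_of_lt hx hexp⟩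
  have hY : ∀ n : ℕ, ∃ x : 𝓞 F, v.valuation F (yc ((n + 1) • P) - (x : F)) < 1 := by
    intro n
    obtain ⟨x, hx⟩ := exists_val_lt_of_int v (not_ker _ (hcon (n + 1) n.succ_pos)).2.2 1
    exact ⟨x, lt_of_le_of_lt hx hexp⟩
  choose X hX using hX
  choose Y hY using hY
  obtain ⟨i, j, hij, he⟩ := Finite.exists_ne_map_eq_of_infinite
    (fun n : ℕ => (Ideal.Quotient.mk v.asIdeal (X n), Ideal.Quotient.mk v.asIdeal (Y n)))
  have key : ∀ i j : ℕ, i < j → Ideal.Quotient.mk v.asIdeal (X i) =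
      Ideal.Quotient.mk v.asIdeal (X j) → Ideal.Quotient.mk v.asIdeal (Y i) =
      Ideal.Quotient.mk v.asIdeal (Y j) → False := by
    intro i j hij h1 h2
    have h1' : v.valuation F ((X i : F) - (X j : F)) < 1 := by
      have := (v.valuation_lt_one_iff_mem (K := F) (X i - X j)).2 (Ideal.Quotient.eq.1 h1)
      simpa using this
    have h2' : v.valuation F ((Y i : F) - (Y j : F)) < 1 := by
      have := (v.valuation_lt_one_iff_mem (K := F) (Y i - Y j)).2 (Ideal.Quotient.eq.1 h2)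
      simpa using this
    have h4 : v.valuation F (xc ((i + 1) • P) - xc ((j + 1) • P)) < 1 := by
      have e : xc ((i + 1) • P) - xc ((j + 1) • P) = (xc ((i + 1) • P) - (X i : F)) +
          ((X i : F) - (X j : F)) - (xc ((j + 1) • P) - (X j : F)) := by ring
      rw [e]
      exact (v.valuation F).map_sub_lt ((v.valuation F).map_add_lt (hX i) h1') (hX j)
    have h5 : v.valuation F (yc ((i + 1) • P) - yc ((j + 1) • P)) < 1 := by
      have e : yc ((i + 1) • P) - yc ((j + 1) • P) = (yc ((i + 1) • P) - (Y i : F)) +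
          ((Y i : F) - (Y j : F)) - (yc ((j + 1) • P) - (Y j : F)) := by ring
      rw [e]
      exact (v.valuation F).map_sub_lt ((v.valuation F).map_add_lt (hY i) h2') (hY j)
    have h6 := red_inj (v.valuation F) h3 (hcon (i + 1) i.succ_pos) (hcon (j + 1) j.succ_pos) h4 h5
    have h7 := ker_neg _ h6
    have h8 : -((i + 1) • P - (j + 1) • P) = (j - i) • P := by
      obtain ⟨d, rfl⟩ := Nat.exists_eq_add_of_lt hij
      have e2 : i + d + 1 + 1 = (d + 1) + (i + 1) := by ring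
      have e3 : i + d + 1 - i = d + 1 := by omega
      rw [e3, neg_sub, sub_eq_iff_eq_add, e2, add_nsmul]
    rw [h8] at h7
    exact hcon (j - i) (Nat.sub_pos_of_lt hij) h7
  have he1 := congrArg Prod.fst he
  have he2 := congrArg Prod.snd he
  rcases lt_or_gt_of_ne hij with h | h
  · exact key i j h he1 he2
  · exact key j i h he1.symm he2.symm

private theorem sac_place {ϖ : 𝓞 K} {ℓ q : ℕ} (h : PD ϖ ℓ q) (hi : cj ϖ = ϖ) (P : Pt F)
    (v : HeightOneSpectrum (𝓞 F)) (hv : v.valuation F (algebraMap K F (ϖ : K)) < 1) :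
    ∃ n : ℕ, n.Coprime ℓ ∧ Ker (v.valuation F) (n • P) := by
  classical
  have hex := exists_nsmul_ker v (pd_val_three h hv) P
  obtain ⟨hn0, hnK⟩ := Nat.find_spec hex
  refine ⟨Nat.find hex, ?_, hnK⟩
  rw [Nat.coprime_comm, h.hl.coprime_iff_not_dvd]
  rintro ⟨m, hm⟩
  have hq : q = ℓ ^ 2 := by
    rcases pd_cases h with ⟨_, hc⟩ | ⟨hq, _⟩
    · rw [hi] at hc
      exact absurd (isCoprime_self.1 hc) h.prime.not_isUnit
    · exact hq
  have hsq : (ϖ - (ℓ : 𝓞 K)) * (ϖ + (ℓ : 𝓞 K)) = 0 := by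
    have e := pd_mul_cj h
    rw [hi, hq] at e
    push_cast at e
    linear_combination e
  have hm0 : 0 < m := by
    rcases Nat.eq_zero_or_pos m with h0 | h0
    · rw [h0, mul_zero] at hm
      omega
    · exact h0
  have hl1 : 1 < ℓ := h.hl.one_lt
  have hmn : m < Nat.find hex := by
    rw [hm]
    exact lt_mul_of_one_lt_left hm0 hl1
  refine Nat.find_min hex hmn ⟨hm0, ?_⟩
  apply ker_sat h.prime h.one v hv
  rw [hm, mul_nsmul', ← sm_nat] at hnK
  rcases mul_eq_zero.1 hsq with h1 | h1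
  · rw [sub_eq_zero.1 h1]
    exact hnK
  · rw [eq_neg_of_add_eq_zero_left h1, map_neg]
    exact ker_neg _ hnK

/-- inert case: a multiple prime to `ℓ` lies in all the kernels of reduction above `ℓ` -/
theorem exists_coprime_ker {ϖ : 𝓞 K} {ℓ q : ℕ} (h : PD ϖ ℓ q) (hi : cj ϖ = ϖ) (P : Pt F) :
    ∃ n : ℕ, n.Coprime ℓ ∧ ∀ v : HeightOneSpectrum (𝓞 F),
      v.valuation F (algebraMap K F (ϖ : K)) < 1 → Ker (v.valuation F) (n • P) := by
  classical
  have h0 : algebraMap K F (ϖ : K) ≠ 0 := by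
    rw [Ne, map_eq_zero]
    exact fun e => h.prime.ne_zero (RingOfIntegers.ext e)
  have hf := od_finite (F := F) h0
  have hpl : ∀ v : HeightOneSpectrum (𝓞 F), ∃ n : ℕ, n.Coprime ℓ ∧
      (v.valuation F (algebraMap K F (ϖ : K)) < 1 → Ker (v.valuation F) (n • P)) := by
    intro v
    by_cases hv : v.valuation F (algebraMap K F (ϖ : K)) < 1
    · obtain ⟨n, h1, h2⟩ := sac_place h hi P v hv
      exact ⟨n, h1, fun _ => h2⟩
    · exact ⟨1, Nat.coprime_one_left _, fun hv' => absurd hv' hv⟩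
  choose N hN1 hN2 using hpl
  refine ⟨∏ v ∈ hf.toFinset, N v, Nat.Coprime.prod_left fun v _ => hN1 v, ?_⟩
  intro v hv
  have hmem : v ∈ hf.toFinset := by
    rw [Set.Finite.mem_toFinset, Set.mem_ofPred_eq]
    exact ((val_lt_one_iff v h0).1 hv).ne'
  obtain ⟨m, hm⟩ := Finset.dvd_prod_of_mem N hmem
  rw [hm, mul_comm, mul_nsmul']
  exact (ker_nsmul _ (hN2 v hv) m).1

end

end Pool.Agent.Lib.MP_1a91b9_ntT.DX
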