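import Pool.Agent.Lib.MP_1a91b9_ntT.DX.Cj
import Pool.Agent.Lib.MP_1a91b9_ntT.DB.Frob
import Pool.Agent.Lib.MP_1a91b9_ntT.CF.Frob

/-!
# DX: the decomposition groups at the places above the conjugate prime, base case

PROOF (complete; stream DX of helper92, top of Theorem D). Jobs DcA (`y_frob_ker`, `frob_ord`), DcB
(`nrm_base`, `dtb_cj_base`).

DcA. `y_frob_ker` is `y_frob` of DB/Frob (finished proof: /team-store/MP_1a91b9_nt_DB_FrA.lean, copy it with its
private lemmas, renamed): there `n • Q = 0` and `W n = 1` are only used to prove that the images of `Q` and `sm β Q` are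
not in the kernel at `W'`; here it follows from `hK`, `hK'` (`xc_pm`, `val_map_lt`/`val_map_le`: `Ker v' (pm f Q)` iff
`Ker v Q`).
`frob_ord` (compare `frob_sm`, finished proof: /team-store/MP_1a91b9_nt_DB_FrB.lean). `v = W.valuation N`. `v 3 = 1` (as there). `¬ γ ∣ β`:
otherwise `β = γ c`, `β` is prime and `γ` is not a unit, so `c` is a unit, `v c = 1`, `v β = v γ = 1`. `ga σ P = sm c P` with
`¬ γ ∣ c` (`gal_sm`; `γ` is not a unit). `yS_unit` (for `γ`): the ordinates of `S + P` (`c = 1`), `S + sm β P`, `S + sm c P` have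
valuation `1`, so these points are not in the kernel (`ker_iff_y`/`ker_val`: in the kernel `1 < v (yc ..)` or the point is
`0`). `sm β (S + P) = S + sm β P` (`sm_S β h.one`), `ga σ (S + P) = S + ga σ P` (`ga_S`). `y_frob_ker` for `Q = S + P`, and
`y_inj`: `D = S + sm β P - om^i (S + ga σ P)` is in the kernel for an `i ∈ {0,1,2}`. `D = T1 + T2`, `T1 = S - om^i S`, `T2 = sm e P`
(`e = β - om^i c`, `omH` is `sm om`, see DB/Om or DB/Tors). `sm γ D = sm γ T1 = T1` (`γ - 1` is divisible by `3`, `3 • S = 0`: `sm_S`), so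
`T1` is in the kernel (`ker_sm`), killed by `3`: `T1 = 0` (`ker_tors`), `i = 0` (`omH_S`). So `D = sm β P - ga σ P = sm e P` is in the
kernel; if `γ ∣ e` it is `0`, otherwise it has annihilator `(γ)` (`ord_of_prime`) and is not in the kernel by
`not_ker_of_val`.

DcB. `nrm_base`: `𝓞 K → 𝓞 k` is bijective; the ideal of `v` is the image of `(β)` (`β` is a prime element, `(β)` is maximal,
`β ∈ v`), so `nrm v = absNorm (β)`.
`dtb_cj_base`: `v` a place of `N`, `v (cj ϖ) < 1`. `pd_cases`. Case `cj ϖ = ϖ`: `u = v.under (𝓞 k)`, `u ϖ < 1` (`val_map_lt`), `od u ϖ = 1`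
(`hun`, `pd_val_ell_iff`, `od_of_un`), `ram`: all `σ` fix `v` and `[N:k] + 1 = q ≥ 5` (`PD.q_five`), so there is `σ ≠ 1`
(`IsGalois.card_aut_eq_finrank`). Case `q = ℓ`, `ϖ` and `cj ϖ` coprime: `nrm u = ℓ` (`nrm_base` for `cj ϖ`, `absNorm_cj`), `σ` a
Frobenius element at `v` (`CF.exists_fr`): `σ • x - x ^ ℓ ∈ v`. `Deg1 (cj ϖ) ℓ` (`pd_cj`), `v ϖ = 1` (`pd_val_coprime` for `pd_cj`:
`¬ cj ϖ ∣ ϖ`), `frob_ord` with `β = cj ϖ`, `γ = ϖ`: `ga σ P = sm (cj ϖ) P`. If `σ = 1`: `P = sm (cj ϖ) P`, `ϖ ∣ cj ϖ - 1`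
(`Ord.sm_eq_iff`), contradiction with `pd_not_dvd_cj_sub_one`. `gpl σ v = v`: see the end of the proof of `y_frob` (if
`x ∈ v` then `σ x ∈ v`).
-/

set_option autoImplicit false

namespace Pool.Agent.Lib.MP_1a91b9_ntT.DX

open NumberField IsDedekindDomain WeierstrassCurve DB Pool.Agent.Lib.MP_1a91b9_nt

universe u

/-- a place above `W` -/
private theorem dca_over {N L : Type u} [Field N] [NumberField N] [Field L] [NumberField L]
    [Algebra N L] (W : HeightOneSpectrum (𝓞 N)) :
    ∃ W' : HeightOneSpectrum (𝓞 L), W'.under (𝓞 N) = W := by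
  have i3 : W.asIdeal.IsPrime := W.isPrime
  obtain ⟨Q, hQ1, hQ2⟩ := (inferInstance : Nonempty (W.asIdeal.primesOver (𝓞 L)))
  have hb : Q ≠ ⊥ := Ideal.ne_bot_of_mem_primesOver W.ne_bot ⟨hQ1, hQ2⟩
  refine ⟨⟨Q, hQ1, hb⟩, ?_⟩
  apply HeightOneSpectrum.ext
  exact hQ2.over.symm

/-- congruence of products -/
private theorem dca_prod {F : Type*} [Field F] {Γ : Type*} [LinearOrderedCommGroupWithZero Γ]
    (v : Valuation F Γ) {ι : Type*} (s : Finset ι) (f : ι → F) (c : F) (hc : v c ≤ 1)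
    (h : ∀ a ∈ s, v (f a - c) < 1) : v (∏ a ∈ s, f a - c ^ s.card) < 1 := by
  classical
  have hle : ∀ t : Finset ι, t ⊆ s → v (∏ a ∈ t, f a) ≤ 1 := by
    intro t ht
    rw [map_prod]
    refine Finset.prod_le_one' fun a ha => ?_
    have h1 := h a (ht ha)
    have h2 : f a = (f a - c) + c := by ring
    rw [h2]
    exact v.map_add_le h1.le hc
  induction s using Finset.induction_on with
  | empty => simp
  | insert a s ha ih =>
    rw [Finset.prod_insert ha, Finset.card_insert_of_notMem ha]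
    have h1 := ih (fun b hb => h b (Finset.mem_insert_of_mem hb))
      (fun t ht => hle t (ht.trans (Finset.subset_insert a s)))
    have h2 := h a (Finset.mem_insert_self a s)
    have e : f a * ∏ x ∈ s, f x - c ^ (s.card + 1) =
        (f a - c) * ∏ x ∈ s, f x + c * (∏ x ∈ s, f x - c ^ s.card) := by ring
    rw [e]
    refine v.map_add_lt ?_ ?_
    · rw [map_mul]
      exact (mul_le_of_le_one_right' (hle s (Finset.subset_insert a s))).trans_lt h2
    · rw [map_mul]
      exact (mul_le_of_le_one_left' hc).trans_lt h1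

/-- `3` is a unit at the places above a prime element of degree one -/
private theorem dca_three {N : Type u} [Field N] [NumberField N] [Algebra K N] [DecidableEq N]
    {Γ : Type*} [LinearOrderedCommGroupWithZero Γ] (v : Valuation N Γ) {β : 𝓞 K} {p : ℕ}
    (h : Deg1 β p) (hW : v (algebraMap K N (β : K)) < 1) : v (3 : N) = 1 := by
  obtain ⟨g, hg⟩ := (h.dvd_int_iff p).2 dvd_rfl
  have hvp : v ((p : ℕ) : N) < 1 := by
    have e1 : ((p : ℕ) : N) = algebraMap K N (β : K) * algebraMap K N (g : K) := by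
      have e2 := congrArg (fun z : 𝓞 K => algebraMap K N (z : K)) hg
      simpa using e2
    rw [e1, map_mul]
    calc v (algebraMap K N (β : K)) * v (algebraMap K N (g : K))
        ≤ v (algebraMap K N (β : K)) * 1 := by gcongr; exact v_alg_le v g
      _ < 1 := by rw [mul_one]; exact hW
  have cop : ∀ m : ℕ, v ((m : ℕ) : N) < 1 → m.Coprime p → False := by
    intro m hm hc
    have h1 : (1 : N) = (m : N) * ((Nat.gcdA m p : ℤ) : N) + (p : N) * ((Nat.gcdB m p : ℤ) : N) := by
      have := Nat.gcd_eq_gcd_ab m p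
      rw [hc.gcd_eq_one] at this
      exact_mod_cast this
    have h2 : v (1 : N) < 1 := by
      conv_lhs => rw [h1]
      refine Valuation.map_add_lt _ ?_ ?_
      · rw [map_mul]
        calc v (m : N) * v ((Nat.gcdA m p : ℤ) : N) ≤ v (m : N) * 1 := by
              gcongr; exact v_int_le v _
          _ < 1 := by rw [mul_one]; exact hm
      · rw [map_mul]
        calc v (p : N) * v ((Nat.gcdB m p : ℤ) : N) ≤ v (p : N) * 1 := by
              gcongr; exact v_int_le v _
          _ < 1 := by rw [mul_one]; exact hvp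
    rw [map_one] at h2
    exact lt_irrefl _ h2
  have hp3 : Nat.Coprime 3 p := by
    rw [Nat.Prime.coprime_iff_not_dvd Nat.prime_three, Nat.dvd_iff_mod_eq_zero, h.mod_three]
    norm_num
  refine le_antisymm (by exact_mod_cast v_nat_le v 3) (not_lt.1 fun h1 => ?_)
  exact cop 3 (by exact_mod_cast h1) hp3

section
variable {k N : Type u} [Field k] [NumberField k] [Algebra K k] [Field N] [NumberField N]
  [Algebra K N] [Algebra k N] [IsScalarTower K k N] [DecidableEq N] {β : 𝓞 K} {p : ℕ}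
  (h : Deg1 β p) (W : HeightOneSpectrum (𝓞 N))
  (hW : W.valuation N (algebraMap K N (β : K)) < 1) (σ : Gal(N/k))
  (hσ : ∀ x : 𝓞 N, σ • x - x ^ p ∈ W.asIdeal)
include h hW hσ

theorem y_frob_ker {Q : Pt N} (hK : ¬ Ker (W.valuation N) Q)
    (hK' : ¬ Ker (W.valuation N) (sm N β Q)) (hQ0 : yc Q ≠ 0) (hQ2 : yc (sm N β Q) ≠ 0) :
    W.valuation N (yc (sm N β Q) - yc (ga σ Q)) < 1 := by
  classical
  have hQ1 : sm N β Q ≠ 0 := fun e => hK' (Or.inl e)
  obtain ⟨L, iF, iNF, iKL, _, iNL, _, iT, _, _, _, R, hR, _⟩ := exists_ext N N h.isPrime h.one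
  obtain ⟨W', hW'⟩ := dca_over (L := L) W
  set v' := W'.valuation L with hv'
  have mlt : ∀ a : N, v' (algebraMap N L a) < 1 ↔ W.valuation N a < 1 := fun a => by
    rw [hv', val_map_lt, hW']
  have mle : ∀ a : N, v' (algebraMap N L a) ≤ 1 ↔ W.valuation N a ≤ 1 := fun a => by
    rw [hv', val_map_le, hW']
  let f : N →ₐ[K] L := IsScalarTower.toAlgHom K N L
  have hf : ∀ a : N, f a = algebraMap N L a := fun a => rfl
  obtain ⟨g⟩ := exists_emb L
  have hRβ : sm L β R = 0 := (hR β).2 dvd_rfl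
  have hR0 : R ≠ 0 := by
    intro h0
    have h1 : sm L 1 R = 0 := by rw [h0, map_zero]
    exact h.isPrime.not_isUnit (isUnit_of_dvd_one ((hR 1).1 h1))
  have hsmQ : sm L β (pm f Q) = pm f (sm N β Q) := (pm_sm f β Q).symm
  have hP : sm L β (pm f Q) ≠ 0 := by
    rw [hsmQ]
    intro h0
    exact hQ1 (pm_inj f (h0.trans (map_zero _).symm))
  have hP0 : yc (sm L β (pm f Q)) ≠ 0 := by
    rw [hsmQ, yc_pm]
    intro h0
    exact hQ2 (f.injective (h0.trans (map_zero _).symm))
  have hdist := dist_deg1 g h hRβ hR0 hP hP0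
  have hvβ : v' (algebraMap K L (β : K)) < 1 := by
    rw [IsScalarTower.algebraMap_apply K N L, mlt]
    exact hW
  have hKR : Ker v' R := ker_of_val v' h.isPrime h.one hR hvβ
  have hKa : ∀ a : ℕ, Ker v' (a • R) := fun a => (ker_nsmul v' hKR a).1
  have hKS : ¬ Ker v' (ptS L) := by
    rintro (h0 | h0)
    · exact S_ne_zero h0
    · rw [ptS, xc_mk, Valuation.map_neg, map_one] at h0
      exact lt_irrefl _ h0
  have hKf : ∀ X : Pt N, ¬ Ker (W.valuation N) X → ¬ Ker v' (pm f X) := by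
    rintro X hX (h0 | h0)
    · exact hX (Or.inl (pm_inj f (h0.trans (map_zero _).symm)))
    · rw [xc_pm, hf, ← not_le, mle, not_le] at h0
      exact hX (Or.inr h0)
  have hKQ : ¬ Ker v' (pm f Q) := hKf Q hK
  have hKQ' : ¬ Ker v' (sm L β (pm f Q)) := by
    rw [hsmQ]
    exact hKf _ hK'
  have hyQ := (not_ker v' hKQ).2.2
  have hyQ' := (not_ker v' hKQ').2.2
  have hA := dca_prod v' (Finset.Ico 1 p) (fun a => yc (ptS L + a • R)) (omF L) (v_om v').le
    (fun a _ => by
      have h1 := (add_ker v' hKS (hKa a)).2.2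
      rw [ptS, yc_mk] at h1
      exact h1.trans_lt (ker_tc_lt v' (hKa a)))
  have hB := dca_prod v' (Finset.Ico 1 p) (fun a => yc (pm f Q + a • R)) (yc (pm f Q)) hyQ
    (fun a _ => (add_ker v' hKQ (hKa a)).2.2.trans_lt (ker_tc_lt v' (hKa a)))
  rw [Nat.card_Ico] at hA hB
  have hp7 := h.seven_le
  have hp3 := h.mod_three
  have hom : omF L ^ (p - 1) = 1 := by
    obtain ⟨q, hq⟩ : ∃ q, p - 1 = 3 * q := ⟨p / 3, by omega⟩
    rw [hq, pow_mul, omF_cube, one_pow]
  rw [hom] at hA
  have hC : v' (yc (sm L β (pm f Q)) - yc (pm f Q) ^ p) < 1 := by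
    have e : yc (sm L β (pm f Q)) - yc (pm f Q) ^ p =
        yc (sm L β (pm f Q)) * -(∏ a ∈ Finset.Ico 1 p, yc (ptS L + a • R) - 1) +
        yc (pm f Q) * (∏ a ∈ Finset.Ico 1 p, yc (pm f Q + a • R) - yc (pm f Q) ^ (p - 1)) := by
      have e1 : yc (pm f Q) ^ p = yc (pm f Q) * yc (pm f Q) ^ (p - 1) := by
        rw [← pow_succ', Nat.sub_add_cancel (by omega)]
      rw [e1]
      linear_combination hdist
    rw [e]
    refine v'.map_add_lt ?_ ?_
    · rw [map_mul, Valuation.map_neg]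
      exact (mul_le_of_le_one_left' hyQ').trans_lt hA
    · rw [map_mul]
      exact (mul_le_of_le_one_left' hyQ).trans_lt hB
  have hD : W.valuation N (yc (sm N β Q) - yc Q ^ p) < 1 := by
    rw [← mlt, map_sub, map_pow]
    rw [hsmQ, yc_pm, yc_pm, hf, hf] at hC
    exact hC
  have hyQN : W.valuation N (yc Q) ≤ 1 := by
    rw [← mle]
    rw [yc_pm, hf] at hyQ
    exact hyQ
  obtain ⟨x, hx⟩ := exists_val_lt_of_int W hyQN 1
  have hx1 : W.valuation N (yc Q - (x : N)) < 1 := by
    refine hx.trans_lt ?_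
    rw [← WithZero.exp_zero, WithZero.exp_lt_exp]
    norm_num
  have hgp : gpl σ⁻¹ W = W := by
    apply HeightOneSpectrum.ext
    have hle : W.asIdeal ≤ (gpl σ⁻¹ W).asIdeal := by
      intro y hy
      change (σ⁻¹)⁻¹ • y ∈ W.asIdeal
      rw [inv_inv]
      have h1 := hσ y
      have h2 : y ^ p ∈ W.asIdeal := Ideal.pow_mem_of_mem _ hy p (by omega)
      have h3 := Ideal.add_mem _ h1 h2
      rwa [sub_add_cancel] at h3
    exact (W.isMaximal.eq_of_le (gpl σ⁻¹ W).isPrime.ne_top hle).symm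
  have hgp' : gpl σ W = W := by
    have h1 := gpl_mul σ σ⁻¹ W
    rw [mul_inv_cancel, gpl_one, hgp] at h1
    exact h1.symm
  have hvσ : ∀ y : N, W.valuation N (σ y) = W.valuation N y := by
    intro y
    have h1 := gpl_val σ W y
    rw [hgp'] at h1
    exact h1
  have hE : W.valuation N (((σ • x : 𝓞 N) : N) - (x : N) ^ p) < 1 := by
    have h1 := (W.valuation_lt_one_iff_mem (K := N) (σ • x - x ^ p)).2 (hσ x)
    exact h1
  have hx2 : ((σ • x : 𝓞 N) : N) = σ (x : N) := rfl
  have hG : W.valuation N ((x : N) ^ p - yc Q ^ p) < 1 := by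
    have h1 := dca_prod (W.valuation N) (Finset.range p) (fun _ => (x : N)) (yc Q) hyQN
      (fun _ _ => by rw [Valuation.map_sub_swap]; exact hx1)
    rwa [Finset.prod_const, Finset.card_range] at h1
  rw [yc_ga]
  have e : yc (sm N β Q) - σ (yc Q) = ((yc (sm N β Q) - yc Q ^ p) +
      -((x : N) ^ p - yc Q ^ p)) + (-(((σ • x : 𝓞 N) : N) - (x : N) ^ p) +
      -σ (yc Q - (x : N))) := by
    rw [map_sub, hx2]
    ring
  rw [e]
  have hI : W.valuation N (-σ (yc Q - (x : N))) < 1 := by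
    rw [Valuation.map_neg, hvσ]
    exact hx1
  rw [← Valuation.map_neg] at hE hG
  exact Valuation.map_add_lt _ (Valuation.map_add_lt _ hD hG) (Valuation.map_add_lt _ hE hI)

/-- the Frobenius at a place of degree one acts as `β` on the points killed by another prime
element `γ` -/
theorem frob_ord {γ : 𝓞 K} (hγ : Prime γ) (hγ1 : (3 : 𝓞 K) ∣ γ - 1)
    (hγW : W.valuation N (algebraMap K N (γ : K)) = 1) {P : Pt N} (hP : Ord γ P) :
    ga σ P = sm N β P := by
  set v := W.valuation N with hv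
  have h3 : v (3 : N) = 1 := dca_three v h hW
  have h3' : v ((3 : ℕ) : N) = 1 := by exact_mod_cast h3
  have hγβ : ¬ γ ∣ β := by
    rintro ⟨c, hc⟩
    rcases h.isPrime.dvd_or_dvd (dvd_of_eq hc) with ⟨d, hd⟩ | ⟨d, hd⟩
    · have e1 : algebraMap K N (γ : K) = algebraMap K N (β : K) * algebraMap K N (d : K) := by
        have e2 := congrArg (fun z : 𝓞 K => algebraMap K N (z : K)) hd
        simpa using e2
      have e3 : v (algebraMap K N (γ : K)) < 1 := by
        rw [e1, map_mul]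
        calc v (algebraMap K N (β : K)) * v (algebraMap K N (d : K))
            ≤ v (algebraMap K N (β : K)) * 1 := by gcongr; exact v_alg_le v d
          _ < 1 := by rw [mul_one]; exact hW
      rw [hγW] at e3
      exact lt_irrefl _ e3
    · have e1 : β * 1 = β * (γ * d) := by
        rw [mul_one]
        calc β = γ * c := hc
          _ = β * (γ * d) := by rw [hd]; ring
      have e2 := mul_left_cancel₀ h.isPrime.ne_zero e1
      exact hγ.not_isUnit (IsUnit.of_mul_eq_one d e2.symm)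
  have hγ1' : ¬ γ ∣ 1 := fun e => hγ.not_isUnit (isUnit_of_dvd_one e)
  obtain ⟨c, hcop, hc⟩ := gal_sm hγ.ne_zero hP σ
  have hγc : ¬ γ ∣ c := fun e => hγ.not_isUnit (hcop.isUnit_of_dvd' e dvd_rfl)
  have u1 : v (yc (ptS N + P)) = 1 := by
    have e1 := yS_unit v hγ hγ1 hP hγ1'
    rwa [map_one] at e1
  have u2 : v (yc (ptS N + sm N β P)) = 1 := yS_unit v hγ hγ1 hP hγβ
  have u3 : v (yc (ptS N + sm N c P)) = 1 := yS_unit v hγ hγ1 hP hγc
  have hne : ∀ X : Pt N, v (yc X) = 1 → yc X ≠ 0 := by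
    intro X hX e
    rw [e, map_zero] at hX
    exact zero_ne_one hX
  have hnk : ∀ X : Pt N, v (yc X) = 1 → ¬ Ker v X := by
    rintro X hX (e | e)
    · have e1 := hne X hX
      rw [e, yc_zero] at e1
      exact e1 rfl
    · have hX0 : X ≠ 0 := by
        intro e1
        have e2 := hne X hX
        rw [e1, yc_zero] at e2
        exact e2 rfl
      rw [ker_iff_y v hX0, hX] at e
      exact lt_irrefl _ e
  have eβ : sm N β (ptS N + P) = ptS N + sm N β P := by rw [map_add, sm_S β h.one]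
  have eG : ga σ (ptS N + P) = ptS N + sm N c P := by rw [map_add, ga_S, hc]
  have hy := y_frob_ker h W hW σ hσ (Q := ptS N + P) (hnk _ u1) (by rw [eβ]; exact hnk _ u2)
    (hne _ u1) (by rw [eβ]; exact hne _ u2)
  rw [eβ, eG] at hy
  have hγP : sm N γ P = 0 := (hP γ).2 dvd_rfl
  have mulsm : ∀ (a b : 𝓞 K) (X : Pt N), sm N a (sm N b X) = sm N (a * b) X := by
    intro a b X
    rw [map_mul]
    rfl
  -- the difference with `om ^ i` is in the kernel only for `i = 0`
  have fin : ∀ u : 𝓞 K, Ker v (ptS N + sm N β P - sm N u (ptS N + sm N c P)) →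
      ptS N = sm N u (ptS N) := by
    intro u hu
    have e1 : sm N γ (ptS N + sm N β P - sm N u (ptS N + sm N c P)) =
        ptS N - sm N u (ptS N) := by
      have e2 : sm N γ (sm N β P) = 0 := by rw [mulsm, mul_comm, ← mulsm, hγP, map_zero]
      have e3 : sm N γ (sm N u (sm N c P)) = 0 := by
        rw [mulsm, mulsm, mul_comm (γ * u) c, mul_comm γ u, ← mul_assoc, ← mulsm, hγP, map_zero]
      have e4 : sm N γ (sm N u (ptS N)) = sm N u (ptS N) := by
        rw [mulsm, mul_comm, ← mulsm, sm_S γ hγ1]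
      rw [map_add (sm N u), map_sub, map_add, map_add, e2, e3, e4, sm_S γ hγ1, add_zero, add_zero]
    have e2 := ker_sm v hu γ
    rw [e1] at e2
    refine sub_eq_zero.1 (ker_tors v e2 3 h3' ?_)
    rw [nsmul_sub, three_S, ← map_nsmul, three_S, map_zero, sub_zero]
  have n1 := hnk _ u2
  have n2 := hnk _ u3
  rcases y_inj v h3 n1 n2 hy with hk | hk | hk
  · have e1 : ptS N + sm N β P - (ptS N + sm N c P) = sm N (β - c) P := by
      rw [map_sub, add_sub_add_left_eq_sub]
      rfl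
    rw [e1] at hk
    by_cases hd : γ ∣ β - c
    · rw [hc]
      exact ((hP.sm_eq_iff β c).2 hd).symm
    · exfalso
      have e2 : Ord γ (sm N (β - c) P) := by
        refine ord_of_prime hγ ?_ ?_
        · rw [mulsm, mul_comm, ← mulsm, hγP, map_zero]
        · intro e3
          exact hd ((hP _).1 e3)
      exact not_ker_of_val v hγ hγ1 e2 hγW hk
  · exfalso
    have e1 := fin S3.omO (by rw [sm_om]; exact hk)
    rw [sm_om] at e1
    exact omH_S.1 e1.symm
  · exfalso
    have e1 := fin (S3.omO * S3.omO) (by rw [← mulsm, sm_om, sm_om]; exact hk)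
    rw [← mulsm, sm_om, sm_om] at e1
    exact omH_S.2 e1.symm

end

theorem nrm_base {β : 𝓞 K} (hβ : Prime β) {k : Type u} [Field k] [NumberField k] [Algebra K k]
    (hk : Function.Bijective (algebraMap K k)) (v : HeightOneSpectrum (𝓞 k))
    (hv : v.valuation k (algebraMap K k (β : K)) < 1) :
    nrm v = Ideal.absNorm (Ideal.span {β}) := by
  let e : 𝓞 K ≃+* 𝓞 k :=
    RingOfIntegers.mapRingEquiv (RingEquiv.ofBijective (algebraMap K k) hk)
  have hbm : e β ∈ v.asIdeal := (v.valuation_lt_one_iff_mem (K := k) (e β)).1 hv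
  have hpr : (Ideal.span {β} : Ideal (𝓞 K)).IsPrime :=
    (Ideal.span_singleton_prime hβ.ne_zero).2 hβ
  have hne : (Ideal.span {β} : Ideal (𝓞 K)) ≠ ⊥ := by
    rw [Ne, Ideal.span_singleton_eq_bot]
    exact hβ.ne_zero
  have hmax : (Ideal.span {β} : Ideal (𝓞 K)).IsMaximal := hpr.isMaximal hne
  have hcom : Ideal.span {β} = v.asIdeal.comap (e : 𝓞 K →+* 𝓞 k) := by
    refine hmax.eq_of_le ?_ ?_
    · exact Ideal.comap_ne_top _ v.isPrime.ne_top
    · rw [Ideal.span_singleton_le_iff_mem, Ideal.mem_comap]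
      exact hbm
  have hI : v.asIdeal = (Ideal.span {β}).map (e : 𝓞 K →+* 𝓞 k) := by
    rw [hcom]
    exact (Ideal.map_comap_of_surjective (e : 𝓞 K →+* 𝓞 k) e.surjective v.asIdeal).symm
  rw [nrm_eq, Ideal.absNorm_apply, Ideal.absNorm_apply, Submodule.cardQuot_apply,
    Submodule.cardQuot_apply]
  exact (Nat.card_congr (Ideal.quotientEquiv _ _ e hI).toEquiv).symm

/-- the base case for the places above the conjugate prime -/
theorem dtb_cj_base {ϖ : 𝓞 K} {ℓ q : ℕ} (h : PD ϖ ℓ q) (k : Type u) [Field k] [NumberField k]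
    [Algebra K k] (hk : Function.Bijective (algebraMap K k))
    (hun : ∀ v : HeightOneSpectrum (𝓞 k), v.valuation k (ℓ : k) < 1 → od v (ℓ : k) = 1) :
    DTb (cj ϖ) ϖ k := by
  intro N _ _ _ _ _ _ _ P hF v hv
  have hmap : ∀ x : 𝓞 K, algebraMap K N (x : K) = algebraMap k N (algebraMap K k (x : K)) :=
    fun x => IsScalarTower.algebraMap_apply K k N _
  have hu : (v.under (𝓞 k)).valuation k (algebraMap K k (cj ϖ : K)) < 1 := by
    rw [hmap, val_map_lt] at hv
    exact hv
  rcases pd_cases h with ⟨hq, hco⟩ | ⟨hq, hcj⟩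
  · have hc := pd_cj h
    have hn : nrm (v.under (𝓞 k)) = ℓ := by
      rw [nrm_base hc.prime hk _ hu, hc.norm, hq]
    obtain ⟨σ, hσ⟩ := CF.exists_fr (k := k) v
    have hσ' : ∀ x : 𝓞 N, σ • x - x ^ ℓ ∈ v.asIdeal := by
      intro x
      have h1 := hσ x
      rwa [hn] at h1
    have hd1 : Deg1 (cj ϖ) ℓ := ⟨h.hl, by rw [hc.norm, hq], hc.one⟩
    have hnd : ¬ cj ϖ ∣ ϖ := by
      intro hd
      exact hc.prime.not_isUnit (hco.isUnit_of_dvd' hd dvd_rfl)
    have hγ := pd_val_coprime hc hv hnd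
    have hga := frob_ord hd1 v hv σ hσ' h.prime h.one hγ hF.ord
    refine ⟨σ, ?_, ?_⟩
    · rintro rfl
      rw [ga_one] at hga
      refine pd_not_dvd_cj_sub_one h hq ((hF.ord (cj ϖ - 1)).1 ?_)
      rw [map_sub, map_one]
      change sm N (cj ϖ) P - P = 0
      rw [← hga, sub_self]
    · have hgp : gpl σ⁻¹ v = v := by
        apply HeightOneSpectrum.ext
        have hle : v.asIdeal ≤ (gpl σ⁻¹ v).asIdeal := by
          intro y hy
          change (σ⁻¹)⁻¹ • y ∈ v.asIdeal
          rw [inv_inv]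
          have h1 := hσ' y
          have h2 : y ^ ℓ ∈ v.asIdeal := Ideal.pow_mem_of_mem _ hy ℓ h.hl.pos
          have h3 := Ideal.add_mem _ h1 h2
          rwa [sub_add_cancel] at h3
        exact (v.isMaximal.eq_of_le (gpl σ⁻¹ v).isPrime.ne_top hle).symm
      have h1 := gpl_mul σ σ⁻¹ v
      rw [mul_inv_cancel, gpl_one, hgp] at h1
      exact h1.symm
  · rw [hcj] at hu
    have hul : (v.under (𝓞 k)).valuation k (ℓ : k) < 1 := (pd_val_ell_iff h).2 (Or.inl hu)
    have hod := od_of_un h hu (hun _ hul)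
    obtain ⟨hcard, hall, -⟩ := ram h.prime h.one hF.ord hF.gen (v.under (𝓞 k)) hod
    have hfix := (hall v rfl).2.2.2.2
    rw [h.norm] at hcard
    have h5 := h.q_five
    rw [← IsGalois.card_aut_eq_finrank k N] at hcard
    have hnt : Nontrivial Gal(N/k) := by
      rw [← Finite.one_lt_card_iff_nontrivial]
      omega
    obtain ⟨σ, hσ⟩ := exists_ne (1 : Gal(N/k))
    exact ⟨σ, hσ, hfix σ⟩

end Pool.Agent.Lib.MP_1a91b9_ntT.DX
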