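import Pool.Agent.Lib.MP_1a91b9_ntT.DB.El
import Pool.Agent.Lib.MP_1a91b9_ntT.S4.PsiDef
import Pool.Agent.Lib.MP_1a91b9_ntT.S3.Card

/-!
# DX: existence of the prime element above every prime number `ℓ ≥ 5`
-/

set_option autoImplicit false

namespace Pool.Agent.Lib.MP_1a91b9_ntT.DX

open NumberField IsDedekindDomain WeierstrassCurve DB

theorem exists_pd {ℓ : ℕ} (hl : ℓ.Prime) (h5 : 5 ≤ ℓ) : ∃ (ϖ : 𝓞 K) (q : ℕ), PD ϖ ℓ q := by
  have hℓ0 : (ℓ : 𝓞 K) ≠ 0 := Nat.cast_ne_zero.2 hl.ne_zero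
  have hnl : Ideal.absNorm (Ideal.span {(ℓ : 𝓞 K)}) = ℓ ^ 2 := by
    have h1 : Ideal.absNorm (Ideal.span {(ℓ : 𝓞 K)}) = (Algebra.norm ℤ (ℓ : 𝓞 K)).natAbs :=
      Ideal.absNorm_span_singleton _
    have h2 : Algebra.norm ℤ ((ℓ : ℕ) : 𝓞 K) = (ℓ : ℤ) ^ Module.finrank ℤ (𝓞 K) := by
      have := Algebra.norm_algebraMap (S := 𝓞 K) (ℓ : ℤ)
      simpa using this
    have h3 : Module.finrank ℤ (𝓞 K) = 2 := by
      rw [RingOfIntegers.rank]
      exact S3.finrank_K
    rw [h1, h2, h3, Int.natAbs_pow, Int.natAbs_natCast]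
  have hne : Ideal.span {(ℓ : 𝓞 K)} ≠ ⊤ := by
    intro h
    rw [h, Ideal.absNorm_top] at hnl
    have : 1 < ℓ ^ 2 := Nat.one_lt_pow (by norm_num) hl.one_lt
    omega
  obtain ⟨M, hM, hle⟩ := Ideal.exists_le_maximal _ hne
  have hMl : (ℓ : 𝓞 K) ∈ M := hle (Ideal.mem_span_singleton_self _)
  have hc3 : IsCoprime M (Ideal.span {(3 : 𝓞 K)}) := by
    rw [Ideal.isCoprime_iff_exists]
    have h1 : IsCoprime (ℓ : ℤ) 3 := by
      have h2 : Nat.Coprime ℓ 3 := by
        rw [Nat.coprime_primes hl Nat.prime_three]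
        omega
      exact_mod_cast Nat.isCoprime_iff_coprime.2 h2
    obtain ⟨a, b, hab⟩ := h1
    refine ⟨(a : 𝓞 K) * ℓ, Ideal.mul_mem_left _ _ hMl, (b : 𝓞 K) * 3,
      Ideal.mul_mem_left _ _ (Ideal.mem_span_singleton_self _), ?_⟩
    exact_mod_cast congrArg (fun z : ℤ => (z : 𝓞 K)) hab
  obtain ⟨ϖ, h1, hs⟩ := S4.exists_gen M hc3
  have hM0 : M ≠ ⊥ := by
    intro h
    rw [h, Ideal.mem_bot] at hMl
    exact hℓ0 hMl
  have hϖ0 : ϖ ≠ 0 := by
    rintro rfl
    apply hM0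
    rw [← hs, Ideal.span_singleton_eq_bot]
  have hp : Prime ϖ := by
    rw [← Ideal.span_singleton_prime hϖ0, hs]
    exact hM.isPrime
  have hd : ϖ ∣ (ℓ : 𝓞 K) := by
    rw [← Ideal.mem_span_singleton, hs]
    exact hMl
  obtain ⟨u, hu⟩ := hd
  have hmul : Ideal.absNorm (Ideal.span {ϖ}) * Ideal.absNorm (Ideal.span {u}) = ℓ ^ 2 := by
    rw [← hnl, hu, ← map_mul, Ideal.span_singleton_mul_span_singleton]
  have hq1 : Ideal.absNorm (Ideal.span {ϖ}) ≠ 1 := by
    intro h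
    rw [Ideal.absNorm_eq_one_iff] at h
    rw [hs] at h
    exact hM.ne_top h
  have hcase : Ideal.absNorm (Ideal.span {ϖ}) = ℓ ∨ Ideal.absNorm (Ideal.span {ϖ}) = ℓ ^ 2 := by
    obtain ⟨i, hi, he⟩ := (Nat.dvd_prime_pow hl).1 (Dvd.intro _ hmul)
    interval_cases i
    · exact absurd (by simpa using he) hq1
    · left
      simpa using he
    · right
      exact he
  -- coordinates
  have hsq : ¬ ϖ ^ 2 ∣ (ℓ : 𝓞 K) := by
    intro hdv
    obtain ⟨c, hc⟩ := hdv
    have hnl2 : Ideal.absNorm (Ideal.span {ϖ}) ^ 2 * Ideal.absNorm (Ideal.span {c}) = ℓ ^ 2 := by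
      rw [← hnl, hc, ← map_pow, ← map_mul, Ideal.span_singleton_pow,
        Ideal.span_singleton_mul_span_singleton]
    have hcu : Ideal.absNorm (Ideal.span {c}) = 1 ∧ Ideal.absNorm (Ideal.span {ϖ}) = ℓ := by
      rcases hcase with h | h
      · rw [h] at hnl2
        have hpos : 0 < ℓ ^ 2 := pow_pos hl.pos 2
        exact ⟨by
          have := Nat.eq_of_mul_eq_mul_left hpos (hnl2.trans (mul_one _).symm)
          exact this, h⟩
      · rw [h] at hnl2
        exfalso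
        have hpos : 0 < ℓ ^ 2 := pow_pos hl.pos 2
        have h2 : ℓ ^ 2 * (ℓ ^ 2 * Ideal.absNorm (Ideal.span {c})) = ℓ ^ 2 * 1 := by
          rw [mul_one, ← mul_assoc, ← sq]
          exact hnl2
        have h3 := Nat.eq_of_mul_eq_mul_left hpos h2
        have h4 : ℓ ^ 2 = 1 := Nat.eq_one_of_mul_eq_one_right h3
        have : 1 < ℓ ^ 2 := Nat.one_lt_pow (by norm_num) hl.one_lt
        omega
    have hunit : IsUnit c := by
      have h2 := hcu.1
      rw [Ideal.absNorm_eq_one_iff, Ideal.span_singleton_eq_top] at h2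
      exact h2
    have hdd : (ℓ : 𝓞 K) ∣ ϖ ^ 2 := by
      obtain ⟨c', hc'⟩ := hunit.exists_right_inv
      refine ⟨c', ?_⟩
      rw [hc, mul_assoc, hc', mul_one]
    have hndd : ¬ (ℓ : 𝓞 K) ∣ ϖ := by
      rintro ⟨d, hd⟩
      have h2 : Ideal.absNorm (Ideal.span {(ℓ : 𝓞 K)}) * Ideal.absNorm (Ideal.span {d}) =
          Ideal.absNorm (Ideal.span {ϖ}) := by
        rw [hd, ← map_mul, Ideal.span_singleton_mul_span_singleton]
      rw [hnl, hcu.2] at h2
      have h3 : ℓ ^ 2 ∣ ℓ := Dvd.intro _ h2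
      have h4 := Nat.le_of_dvd hl.pos h3
      nlinarith
    obtain ⟨m, n, hmn⟩ := S3.exists_coords ϖ
    obtain ⟨d, hd⟩ := hdd
    obtain ⟨r, s, hrs⟩ := S3.exists_coords d
    -- `ϖ ^ 2 = (m ^ 2 - n ^ 2) + (2 m n - n ^ 2) om`
    have huniq : ∀ a b : ℚ, (a : K) + b * om = 0 → a = 0 ∧ b = 0 := by
      intro a b hab
      have hb : b = 0 := by
        by_contra hb
        have h2 : om = algebraMap ℚ K (-a / b) := by
          have hb' : (b : K) ≠ 0 := by exact_mod_cast hb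
          have h3 : om = -(a : K) / b := by
            field_simp
            linear_combination hab
          rw [h3]
          simp
        have h3 := S3.om_quad
        rw [h2] at h3
        have h4 : ((-a / b) ^ 2 + (-a / b) + 1 : ℚ) = 0 := by
          apply (algebraMap ℚ K).injective
          simpa using h3
        nlinarith [sq_nonneg (-a / b + 1 / 2)]
      subst hb
      refine ⟨?_, rfl⟩
      have h2 : (a : K) = 0 := by simpa using hab
      exact_mod_cast h2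
    have hom2 : om ^ 2 = -1 - om := by linear_combination S3.om_quad
    have hE : ((m ^ 2 - n ^ 2 - ℓ * r : ℤ) : K) + ((2 * m * n - n ^ 2 - ℓ * s : ℤ) : K) * om = 0 := by
      have h2 := congrArg (fun z : 𝓞 K => (z : K)) hd
      have h3 : ((ϖ : K)) ^ 2 = (ℓ : K) * (d : K) := by
        simpa using h2
      rw [hmn, hrs] at h3
      push_cast
      linear_combination h3 - (n : K) ^ 2 * hom2
    have hE2 := huniq ((m ^ 2 - n ^ 2 - ℓ * r : ℤ) : ℚ) ((2 * m * n - n ^ 2 - ℓ * s : ℤ) : ℚ) (by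
      push_cast at hE ⊢
      exact hE)
    have e1 : m ^ 2 - n ^ 2 - ℓ * r = 0 := by exact_mod_cast hE2.1
    have e2 : 2 * m * n - n ^ 2 - ℓ * s = 0 := by exact_mod_cast hE2.2
    have hlp : Prime (ℓ : ℤ) := Nat.prime_iff_prime_int.1 hl
    have d1 : (ℓ : ℤ) ∣ m ^ 2 - n ^ 2 := ⟨r, by linear_combination e1⟩
    have d2 : (ℓ : ℤ) ∣ n * (2 * m - n) := ⟨s, by linear_combination e2⟩
    have hfin : (ℓ : ℤ) ∣ m → (ℓ : ℤ) ∣ n → False := by
      rintro ⟨m', hm'⟩ ⟨n', hn'⟩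
      apply hndd
      refine ⟨(m' : 𝓞 K) + n' * S3.omO, ?_⟩
      apply RingOfIntegers.ext
      have h2 : (((m' : 𝓞 K) + n' * S3.omO : 𝓞 K) : K) = m' + n' * om := by
        simp [S3.coe_omO]
      have h3 : (((ℓ : 𝓞 K) * ((m' : 𝓞 K) + n' * S3.omO) : 𝓞 K) : K) = ℓ * (m' + n' * om) := by
        rw [← h2]
        simp
      rw [h3, hmn, hm', hn']
      push_cast
      ring
    rcases hlp.dvd_or_dvd d2 with h2 | h2
    · have h3 : (ℓ : ℤ) ∣ m ^ 2 := by
        have := dvd_add d1 (dvd_pow h2 (two_ne_zero))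
        simpa using this
      exact hfin (hlp.dvd_of_dvd_pow h3) h2
    · have h3 : (ℓ : ℤ) ∣ 3 * m ^ 2 := by
        obtain ⟨x, hx⟩ := h2
        obtain ⟨y, hy⟩ := d1
        refine ⟨x * (4 * m - ℓ * x) - y, ?_⟩
        have hn : n = 2 * m - ℓ * x := by linear_combination -hx
        subst hn
        linear_combination -hy
      rcases hlp.dvd_or_dvd h3 with h4 | h4
      · have h5' : (ℓ : ℤ) ≤ 3 := Int.le_of_dvd (by norm_num) h4
        have : (5 : ℤ) ≤ ℓ := by exact_mod_cast h5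
        omega
      · have h5' := hlp.dvd_of_dvd_pow h4
        refine hfin h5' ?_
        have := dvd_sub (Dvd.dvd.mul_left h5' 2) h2
        simpa using this
  exact ⟨ϖ, _, hl, h5, hp, h1, ⟨u, hu⟩, hsq, rfl, hcase⟩

end Pool.Agent.Lib.MP_1a91b9_ntT.DX
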