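import Pool.Agent.Lib.MP_1a91b9_ntT.DX.Lev
import Pool.Agent.Lib.MP_1a91b9_ntT.DX.Triv
import Pool.Agent.Lib.MP_1a91b9_ntT.DX.Ex
import Pool.Agent.Lib.MP_17a322_nt.VJ.MW4
import Pool.Agent.Lib.MP_1a91b9_ntT.DB.VT

/-!
# DX: the top: `V(F) = 0` implies that `E(F)` is finite

PROOF (complete; stream DX of helper92, top of Theorem D). Jobs TpA (`ram_N`, `TD.vv`), TpB (`exists_divisor`),
TpC (`finite_of_div`, `top`).

`DTb (cj ϖ) ϖ F` (DB/VT.lean): the decomposition groups in the field of a point of annihilator `(ϖ)` at the places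
above `cj ϖ` are not trivial. `DT ϖ F`: the same for the places above `3`.

TpA. `ram_N`: `hun` and `ram` (DB/Ram) for `F ⊂ N`, `R := P₀`, at the place `v = w.under (𝓞 F)`: `w ϖ < 1` gives `v ϖ < 1`
(`val_map_lt`), `v ℓ < 1` (`pd_val_ell_iff`), `od v ϖ = 1` (`od_of_un`). It gives `e = [N:F] = q - 1` (`Full.card`), `od w (tc P₀)
= 1`, and all `σ` fix `w`; `od w ℓ = e * od v ℓ = q - 1` (`od_map`, `hun`).
`TD.vv`: `VV F ϖ ℓ P₀ y`. `iso`: `hK.iso`. `od`: let `w` be a place of `N`. If `w 3 = 1` and `w (cj ϖ) = 1`: take `W` above `w`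
(`CF.exists_over`), `W 3 = 1`, `W (cj ϖ) = 1` (`val_map_eq`), `TD.unram`, `dvd_od` (with `hK.pow`). Otherwise `w 3 < 1` or
`w (cj ϖ) < 1` (`v_alg_le`): there is `σ ≠ 1` with `gpl σ w = w` (`DT`, `DTb`), so `IsoPl.fix` for the function of `Iso.isoPl` gives
`(od w y : ZMod ℓ) = 0`, i.e. `ℓ ∣ od w y` (`ZMod.intCast_zmod_eq_zero_iff_dvd`).
`loc`: `w ϖ < 1`, `W` above `w`. Case `q = ℓ` (`pd_cases`): `¬ ϖ ∣ cj ϖ`, so `w (cj ϖ) = 1` (`pd_val_coprime`), `w 3 = 1`
(`pd_val_three`), `TD.unram`, `wloc_unram`. Case `q = ℓ^2`, `cj ϖ = ϖ`: `TD.wloc_inert` with `ram_N` (`od w ℓ = q - 1 =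
ℓ^2 - 1`), `hker` at `w.under (𝓞 F)`, `hd` from the field `od` just proved.

TpB `exists_divisor`. By contradiction. Case `q = ℓ`: put `P' = P`. Case `cj ϖ = ϖ`: `exists_coprime_ker` gives `n` prime
to `ℓ` with `n • P` in the kernels above `ϖ`; `P' = n • P` is not divisible by `cj ϖ` either: if `sm (cj ϖ) S = n • P`,
`u n + v ℓ = 1`, `ℓ = cj ϖ * e`: `P = sm (cj ϖ) (u • S + v • sm e P)`. So we have `P'` not divisible, and
(`cj ϖ = ϖ` → `P'` in the kernels). `exists_full` for `ϖ` and for `cj ϖ` (`pd_cj`): `N, P₀`, `N₂, P₂`; `exists_TD` for `P'`;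
`exists_phi`, `exists_KC`, `KC.not_pow`, `TD.vv`, and `hV` (the definition of `VT`) gives `y = z ^ ℓ`: contradiction.

TpC `finite_of_div`. `M = Pt F` is a finitely generated abelian group (Mordell-Weil:
`Pool.Agent.Lib.MP_17a322_nt.VJ.mordell_weil`, file MP_17a322_nt/VJ/MW4, applied to the curve `(E K).baseChange F` or
`E F`, which is elliptic; `Pt F` is definitionally the group of points of the base change), and a module over
`𝓞 K` through `sm F` (`Module.compHom`, or `AddCommGroup` with `Module (AddMonoid.End M) M`), finitely generated. With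
`I = (cj ϖ)`: `I M = M`, so Nakayama (`Submodule.exists_sub_one_mem_and_smul_eq_zero_of_fg_of_le_smul`) gives `r` with `r - 1 ∈ I`,
`r M = 0`, `r ≠ 0` (`cj ϖ` is not a unit), so the natural number `n = absNorm (r) ≠ 0` kills `M` (`r ∣ n`: `mul_cj`): a finitely
generated abelian group killed by `n > 0` is finite (`AddCommGroup`/`Module.finite_of_fg_torsion`,
`AddGroup.FG` + torsion: `AddCommMonoid...`; e.g. it is a finitely generated `ZMod n`-module).
`top`: combine with `exists_divisor`.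
-/

set_option autoImplicit false

namespace Pool.Agent.Lib.MP_1a91b9_ntT.DX

open NumberField IsDedekindDomain WeierstrassCurve DB

universe u

/-- (this is `Iso.od_fix` of the final DB/El.lean) -/
private theorem tpa_od_fix {k N : Type u} [Field k] [NumberField k] [Algebra K k] [Field N]
    [NumberField N] [Algebra K N] [Algebra k N] [IsScalarTower K k N] [DecidableEq N]
    {ϖ : 𝓞 K} {ℓ q : ℕ} (h : PD ϖ ℓ q) {P : Pt N} (hF : Full k ϖ P) {a : Nˣ}
    (ha : Iso k ℓ P a) {w : HeightOneSpectrum (𝓞 N)} {σ : Gal(N/k)} (hσ : gpl σ w = w)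
    (hσ1 : σ ≠ 1) : (ℓ : ℤ) ∣ DB.od w (a : N) :=
  Iso.od_fix h hF ha hσ hσ1

theorem ram_N {ϖ : 𝓞 K} {ℓ q : ℕ} (h : PD ϖ ℓ q) {F N : Type u} [Field F] [NumberField F]
    [Algebra K F] [Field N] [NumberField N] [Algebra K N] [Algebra F N] [IsScalarTower K F N]
    [DecidableEq N] [IsGalois F N]
    (hun : ∀ v : HeightOneSpectrum (𝓞 F), v.valuation F (ℓ : F) < 1 → od v (ℓ : F) = 1)
    {P₀ : Pt N} (hP₀ : Full F ϖ P₀) (w : HeightOneSpectrum (𝓞 N))
    (hw : w.valuation N (algebraMap K N (ϖ : K)) < 1) :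
    od w (tc P₀) = 1 ∧ od w (ℓ : N) = (q : ℤ) - 1 ∧ ∀ σ : Gal(N/F), gpl σ w = w := by
  have hv : (w.under (𝓞 F)).valuation F (algebraMap K F (ϖ : K)) < 1 := by
    rw [← val_map_lt, ← IsScalarTower.algebraMap_apply K F N]
    exact hw
  have hvl : (w.under (𝓞 F)).valuation F (ℓ : F) < 1 := (pd_val_ell_iff h).2 (Or.inl hv)
  have h1 := hun _ hvl
  have h2 := od_of_un h hv h1
  obtain ⟨-, h3, -⟩ := ram h.prime h.one hP₀.ord hP₀.gen (w.under (𝓞 F)) h2
  obtain ⟨he, -, ht, -, hg⟩ := h3 w rfl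
  have hc := Full.card h hP₀
  refine ⟨ht, ?_, hg⟩
  have h4 := od_map (k := F) w (ℓ : F)
  rw [map_natCast, h1, he, mul_one] at h4
  rw [h4, ← hc]
  push_cast
  ring

section
variable {F N N₂ L : Type u} [Field F] [NumberField F] [Algebra K F] [Field N] [NumberField N]
  [Algebra K N] [Field N₂] [NumberField N₂] [Algebra K N₂] [Field L] [NumberField L] [Algebra K L]
  [Algebra F N] [Algebra F N₂] [Algebra F L] [Algebra N L] [Algebra N₂ L]
  [IsScalarTower K F N] [IsScalarTower K F N₂] [IsScalarTower K F L] [IsScalarTower K N L]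
  [IsScalarTower K N₂ L] [IsScalarTower F N L] [IsScalarTower F N₂ L]
  [DecidableEq F] [DecidableEq N] [DecidableEq N₂] [DecidableEq L]
  [IsGalois F N] [IsGalois F N₂] [IsGalois F L]
  {ϖ : 𝓞 K} {ℓ q : ℕ} {P : Pt F} {P₀ : Pt N} {P₂ : Pt N₂} {ζ : L} {Q : Pt L}
  (D : TD ϖ ℓ q P P₀ P₂ ζ Q)
include D

theorem TD.vv
    (hun : ∀ v : HeightOneSpectrum (𝓞 F), v.valuation F (ℓ : F) < 1 → od v (ℓ : F) = 1)
    (h3 : DT ϖ F) (hc : DTb (cj ϖ) ϖ F)
    (hker : cj ϖ = ϖ → ∀ v : HeightOneSpectrum (𝓞 F),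
      v.valuation F (algebraMap K F (ϖ : K)) < 1 → Ker (v.valuation F) P)
    {φ : 𝓞 K →+ ZMod ℓ} (hφ : φ ≠ 0) {y : Nˣ} {α : L} (hK : KC F ϖ ℓ P₀ P₂ ζ Q φ y α)
    (hy : ¬ ∃ z : Nˣ, y = z ^ ℓ) : VV F ϖ ℓ P₀ y := by
  have iG : IsGalois N L := IsGalois.tower_top_of_isGalois F N L
  have h := D.pd
  have hod : ∀ w : HeightOneSpectrum (𝓞 N), (ℓ : ℤ) ∣ od w (y : N) := by
    intro w
    by_cases hw : w.valuation N (3 : N) = 1 ∧ w.valuation N (algebraMap K N (cj ϖ : K)) = 1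
    · obtain ⟨W, rfl⟩ := CF.exists_over (k := N) (N := L) w
      have h3' : W.valuation L (3 : L) = 1 := by
        have e := (val_map_eq W (3 : N)).2 hw.1
        rwa [map_ofNat] at e
      have hc' : W.valuation L (algebraMap K L (cj ϖ : K)) = 1 := by
        have e := (val_map_eq W (algebraMap K N (cj ϖ : K))).2 hw.2
        rwa [← IsScalarTower.algebraMap_apply K N L] at e
      exact dvd_od hK.pow W (D.unram W h3' hc')
    · have hσ : ∃ σ : Gal(N/F), σ ≠ 1 ∧ gpl σ w = w := by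
        rcases not_and_or.1 hw with h1 | h1
        · refine h3 N P₀ D.full w (lt_of_le_of_ne ?_ h1)
          exact_mod_cast v_nat_le (w.valuation N) 3
        · exact hc N P₀ D.full w (lt_of_le_of_ne (v_alg_le (w.valuation N) _) h1)
      obtain ⟨σ, hσ1, hσ2⟩ := hσ
      exact tpa_od_fix h D.full hK.iso hσ2 hσ1
  refine ⟨hod, hK.iso, ?_⟩
  intro w hw
  rcases pd_cases h with ⟨-, hcop⟩ | ⟨hq, hi⟩
  · have hn : ¬ ϖ ∣ cj ϖ := fun e => h.prime.not_isUnit (hcop.isUnit_of_dvd' dvd_rfl e)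
    have h1 := pd_val_coprime h hw hn
    have h2 := pd_val_three h hw
    obtain ⟨W, rfl⟩ := CF.exists_over (k := N) (N := L) w
    have h3' : W.valuation L (3 : L) = 1 := by
      have e := (val_map_eq W (3 : N)).2 h2
      rwa [map_ofNat] at e
    have hc' : W.valuation L (algebraMap K L (cj ϖ : K)) = 1 := by
      have e := (val_map_eq W (algebraMap K N (cj ϖ : K))).2 h1
      rwa [← IsScalarTower.algebraMap_apply K N L] at e
    have hw' : W.valuation L (algebraMap K L (ϖ : K)) < 1 := by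
      have e := (val_map_lt W (algebraMap K N (ϖ : K))).2 hw
      rwa [← IsScalarTower.algebraMap_apply K N L] at e
    exact wloc_unram h y.ne_zero hK.pow W (D.unram W h3' hc') hw'
  · obtain ⟨ht, hl, -⟩ := ram_N h hun D.full w hw
    have hv : (w.under (𝓞 F)).valuation F (algebraMap K F (ϖ : K)) < 1 := by
      rw [← val_map_lt, ← IsScalarTower.algebraMap_apply K F N]
      exact hw
    refine D.wloc_inert hi hq hφ hK hy w hw (hker hi _ hv) ht ?_ (hod w)
    rw [hl, hq]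
    push_cast
    ring

end

/-- Nakayama for an additive group with an action of a commutative ring -/
private theorem tpc_nak {R : Type*} [CommRing R] {M : Type*} [AddCommGroup M]
    (f : R →+* AddMonoid.End M) (hfg : AddGroup.FG M) (b : R)
    (hb : ∀ P : M, ∃ P' : M, f b P' = P) :
    ∃ r : R, b ∣ r - 1 ∧ ∀ P : M, f r P = 0 := by
  letI : Module R M := Module.compHom M f
  have hsm : ∀ (r : R) (P : M), r • P = f r P := fun r P => rfl
  obtain ⟨S, hS⟩ := AddGroup.fg_iff.1 hfg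
  have hfgR : (⊤ : Submodule R M).FG := by
    refine ⟨hS.2.toFinset, ?_⟩
    rw [Set.Finite.coe_toFinset, eq_top_iff]
    intro P _
    have hP : P ∈ AddSubgroup.closure S := by
      rw [hS.1]
      exact AddSubgroup.mem_top P
    have hle : AddSubgroup.closure S ≤ (Submodule.span R S).toAddSubgroup :=
      (AddSubgroup.closure_le _).2 Submodule.subset_span
    exact hle hP
  have hin : (⊤ : Submodule R M) ≤ Ideal.span {b} • (⊤ : Submodule R M) := by
    intro P _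
    obtain ⟨P', hP'⟩ := hb P
    rw [← hP', ← hsm]
    exact Submodule.smul_mem_smul (Ideal.mem_span_singleton_self b) Submodule.mem_top
  obtain ⟨r, hr1, hr2⟩ :=
    Submodule.exists_sub_one_mem_and_smul_eq_zero_of_fg_of_le_smul (Ideal.span {b}) ⊤ hfgR hin
  refine ⟨r, Ideal.mem_span_singleton.1 hr1, fun P => ?_⟩
  rw [← hsm]
  exact hr2 P Submodule.mem_top

/-- a finitely generated abelian group killed by a nonzero integer is finite -/
private theorem tpc_fin {M : Type*} [AddCommGroup M] (hfg : AddGroup.FG M) (n : ℕ) (hn : n ≠ 0)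
    (h : ∀ P : M, n • P = 0) : Finite M := by
  have h1 : Module.Finite ℤ M := Module.Finite.iff_addGroup_fg.2 hfg
  refine Module.finite_of_fg_torsion M ?_
  intro P
  refine ⟨⟨(n : ℤ), mem_nonZeroDivisors_of_ne_zero (Nat.cast_ne_zero.2 hn)⟩, ?_⟩
  show (n : ℤ) • P = 0
  rw [natCast_zsmul, h]

/-- Mordell-Weil for the points over `F` -/
private theorem tpc_fg (F : Type u) [Field F] [NumberField F] [Algebra K F] [DecidableEq F] :
    AddGroup.FG (Pt F) := by
  have hE : (Affine.baseChange (E K) F).IsElliptic := by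
    refine (WeierstrassCurve.isElliptic_iff _).2 ?_
    have h27 : (Affine.baseChange (E K) F).Δ = -27 := by
      simp [WeierstrassCurve.Δ, WeierstrassCurve.b₂, WeierstrassCurve.b₄, WeierstrassCurve.b₆,
        WeierstrassCurve.b₈, E]
    rw [h27]
    have h3 : (3 : F) ≠ 0 := three_ne
    refine IsUnit.mk0 _ ?_
    intro h0
    apply pow_ne_zero 3 h3
    linear_combination -h0
  exact Pool.Agent.Lib.MP_17a322_nt.VJ.mordell_weil (Affine.baseChange (E K) F)

section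
variable {ϖ : 𝓞 K} {ℓ q : ℕ} (h : PD ϖ ℓ q) {F : Type u} [Field F] [NumberField F] [Algebra K F]
  [DecidableEq F]
include h

/-- a multiple prime to `ℓ` of a point which is not divisible by `cj ϖ` is not divisible either -/
theorem tpb_not_div {n : ℕ} (hn : n.Coprime ℓ) {P : Pt F}
    (hno : ¬ ∃ P' : Pt F, sm F (cj ϖ) P' = P) : ¬ ∃ S : Pt F, sm F (cj ϖ) S = n • P := by
  rintro ⟨S, hS⟩
  apply hno
  obtain ⟨e, he⟩ := (pd_cj h).dvd
  obtain ⟨u, v, huv⟩ := Nat.isCoprime_iff_coprime.2 hn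
  refine ⟨u • S + v • sm F e P, ?_⟩
  have h1 : sm F (cj ϖ) (sm F e P) = (ℓ : ℤ) • P := by
    have h2 : sm F (cj ϖ) (sm F e P) = sm F (cj ϖ * e) P := by
      rw [map_mul]
      rfl
    rw [h2, ← he, sm_nat, natCast_zsmul]
  rw [map_add, map_zsmul, map_zsmul, hS, h1, ← natCast_zsmul, smul_smul, smul_smul, ← add_smul,
    huv, one_smul]

theorem exists_divisor (hV : VT ϖ ℓ F)
    (hun : ∀ v : HeightOneSpectrum (𝓞 F), v.valuation F (ℓ : F) < 1 → od v (ℓ : F) = 1)
    (h3 : DT ϖ F) (hc : DTb (cj ϖ) ϖ F) (P : Pt F) : ∃ P' : Pt F, sm F (cj ϖ) P' = P := by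
  by_contra hno
  obtain ⟨P', hP', hker⟩ : ∃ P' : Pt F, (¬ ∃ S : Pt F, sm F (cj ϖ) S = P') ∧
      (cj ϖ = ϖ → ∀ v : HeightOneSpectrum (𝓞 F),
        v.valuation F (algebraMap K F (ϖ : K)) < 1 → Ker (v.valuation F) P') := by
    by_cases hi : cj ϖ = ϖ
    · obtain ⟨n, hn, hk⟩ := exists_coprime_ker h hi P
      exact ⟨n • P, tpb_not_div h hn hno, fun _ => hk⟩
    · exact ⟨P, hno, fun hi' => absurd hi' hi⟩
  obtain ⟨N, iN1, iN2, iN3, iN4, iN5, iN6, iN7, P₀, hP₀⟩ := exists_full h F hun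
  obtain ⟨N₂, iM1, iM2, iM3, iM4, iM5, iM6, iM7, P₂, hP₂⟩ := exists_full (pd_cj h) F hun
  obtain ⟨L, iL1, iL2, iL3, iL4, iL5, iL6, iL7, iL8, iL9, iL10, iL11, iL12, iL13, ζ, Q, D⟩ :=
    exists_TD h hP₀ hP₂ P'
  obtain ⟨φ, hφ, hφ0⟩ := exists_phi h
  obtain ⟨y, α, hK⟩ := D.exists_KC φ hφ0
  have hy : ¬ ∃ z : Nˣ, y = z ^ ℓ := KC.not_pow D hφ hK hP'
  exact hy (hV N P₀ hP₀ y (D.vv hun h3 hc hker hφ hK hy))

theorem finite_of_div (hd : ∀ P : Pt F, ∃ P' : Pt F, sm F (cj ϖ) P' = P) : Finite (Pt F) := by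
  have hfg : AddGroup.FG (Pt F) := tpc_fg F
  obtain ⟨r, hr1, hr2⟩ := tpc_nak (sm F) hfg (cj ϖ) hd
  have hr0 : r ≠ 0 := by
    intro h0
    rw [h0, zero_sub] at hr1
    exact (pd_cj h).prime.not_unit (isUnit_of_dvd_unit hr1 isUnit_one.neg)
  have hcr : cj r ≠ 0 := by
    intro h0
    apply hr0
    rw [← cj_cj r, h0, map_zero]
  have hn : Ideal.absNorm (Ideal.span {r}) ≠ 0 := by
    intro h0
    have h1 := mul_cj r
    rw [h0, Nat.cast_zero] at h1
    rcases mul_eq_zero.1 h1 with h2 | h2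
    · exact hr0 h2
    · exact hcr h2
  refine tpc_fin hfg _ hn ?_
  intro P
  rw [← sm_nat, ← mul_cj r, mul_comm, map_mul]
  show sm F (cj r) (sm F r P) = 0
  rw [hr2, map_zero]

/-- the top of the descent -/
theorem top (hV : VT ϖ ℓ F)
    (hun : ∀ v : HeightOneSpectrum (𝓞 F), v.valuation F (ℓ : F) < 1 → od v (ℓ : F) = 1)
    (h3 : DT ϖ F) (hc : DTb (cj ϖ) ϖ F) : Finite (Pt F) :=
  finite_of_div h (exists_divisor h hV hun h3 hc)

end

end Pool.Agent.Lib.MP_1a91b9_ntT.DX
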