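import Pool.Agent.Lib.MP_1a91b9_ntT.DB.VT

/-!
# DX: the conjugation of `𝓞 K`, the conjugate of the prime element

PROOF (complete; stream DX of helper92, top of Theorem D). Jobs CjA (`exists_cj` .. `absNorm_cj`), CjB
(`PD.*`, `od_of_un`, `exists_phi`).

CjA. `exists_cj`: every `a : 𝓞 K` is `m + n om` (`S3.exists_coords`) with unique integers `m, n` (`om` is
not rational). The map `m + n om ↦ (m - n) - n om` is a ring homomorphism (`om^2 = -1 - om`): check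
additivity and multiplicativity on coordinates, uniqueness makes it well defined. Or: `om` and `om^2`
are both roots of `X^2 + X + 1`; there is a `ℚ`-algebra automorphism of `K` with `om ↦ om^2`
(`IsCyclotomicExtension.autEquivPow`, `om_spec.autToPow`, `IsPrimitiveRoot` API; or from
`om_spec.embeddingsEquivPrimitiveRoots K`), take its restriction to the ring of integers
(`RingOfIntegers.mapRingHom`). `cj_cj`: coordinates. `mul_cj`: `(m + n om)((m - n) - n om) = m^2 - m n +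
n^2`, which is `absNorm` (`S3.norm_coords`, `S3.card_quot`, `Ideal.absNorm_apply`/`Submodule.cardQuot`).
`cj_dvd_iff`: `cj` is an involution. `absNorm_cj`: `m' = m - n`, `n' = -n`: `m'^2 - m' n' + n'^2` is the
same (or from `mul_cj` and commutativity, the norm is a natural number in `𝓞 K` of characteristic `0`).

CjB. `PD.cj`: all the fields are transported by the ring automorphism `cj` (`cj ℓ = ℓ`: `map_natCast`;
`Prime` under the ring isomorphism given by `cj` (`MulEquiv.prime_iff` or directly from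
`cj_dvd_iff`)). `PD.mul_cj` : `mul_cj`, `h.norm`. `PD.cases`: if `q = ℓ`: `ϖ * cj ϖ = ℓ`, so `ϖ ∤ cj ϖ`
(`h.sq`), and `ϖ` is prime in a principal ideal domain (or: the quotient by `ϖ` is a field,
`PD.inv`: there is `d` with `ϖ ∣ cj ϖ * d - 1`), so they are coprime. If `q = ℓ ^ 2`: write `ℓ = ϖ * u`
(`h.dvd`); norms: `ℓ^2 = absNorm ℓ = absNorm ϖ * absNorm u = ℓ^2 * absNorm u`, so `u` is a unit;
`cj ℓ = ℓ` gives `cj ϖ * cj u = ϖ * u`; so `cj ϖ = ϖ * u'` with a unit `u'`, `3 ∣ cj ϖ - 1` and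
`3 ∣ ϖ - 1`, hence `3 ∣ u' - 1`; the units of `𝓞 K` are `±1, ±om, ±om^2` (or: `u' = m + n om` with
`m^2 - m n + n^2 = 1`, `3 ∣ m - 1`, `3 ∣ n`: `4 = (2 m - n)^2 + 3 n^2` forces `n = 0`, `m = 1`), so `u' = 1`.
`PD.not_dvd_cj_sub_one`: suppose `q = ℓ` and `ϖ ∣ cj ϖ - 1`. `ϖ = m + n om`, `a := ϖ + cj ϖ = 2 m - n`, an
integer, `ϖ ∣ a - 1`, so `ℓ ∣ a - 1` (`PD.dvd_int_iff`); `3 ∣ ϖ - 1` gives `3 ∣ m - 1`, `3 ∣ n`, so `a = 2`
modulo `3`, and `ℓ = m^2 - m n + n^2`, `4 ℓ = a^2 + 3 n^2`. `ℓ = 1` modulo `3` so `ℓ ≥ 7`. `a = 1 + ℓ j`;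
`j = 0` contradicts `a = 2` modulo `3`; otherwise `|a| ≥ ℓ - 1` and `(ℓ - 1)^2 ≤ a^2 ≤ 4 ℓ`, false for
`ℓ ≥ 7`.
`PD.val_three`, `PD.val_cj`: `w ϖ < 1`; an element coprime to `ϖ` has `w = 1` (`x a + y ϖ = 1`, all the
images have `w ≤ 1`, `v_alg_le`); `3` is coprime to `ϖ` because `3 ∣ ϖ - 1`. `PD.val_ell_iff`:
`ℓ ∣ ϖ * cj ϖ = q` and `ϖ, cj ϖ ∣ ℓ` (`PD.cj`): the valuation of a product. `od_of_un`: `ℓ = ϖ * c` with
`¬ ϖ ∣ c` (`h.sq`), `w c = 1` (`PD.val_iff`), `val_eq`, `od_mul`.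
`exists_phi`: `𝓞 K ⧸ span {cj ϖ}` is a nontrivial additive group killed by `ℓ` (`cj ϖ ∣ ℓ`), a
`ZMod ℓ`-vector space (`AddCommGroup.zmodModule`): a nonzero linear form
(`Module.exists_dual_forall_apply_eq_zero_iff`, or `exists_dual_map_eq_bot`..; e.g. `Module.Free`
basis coordinate) composed with the quotient map.
-/

set_option autoImplicit false

namespace Pool.Agent.Lib.MP_1a91b9_ntT.DX

open NumberField IsDedekindDomain WeierstrassCurve DB

universe u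

noncomputable section

private theorem cja_coords (a : 𝓞 K) : ∃ m n : ℤ, a = (m : 𝓞 K) + (n : 𝓞 K) * S3.omO := by
  obtain ⟨m, n, h⟩ := S3.exists_coords a
  refine ⟨m, n, RingOfIntegers.ext ?_⟩
  rw [h]
  change _ = algebraMap (𝓞 K) K ((m : 𝓞 K) + n * S3.omO)
  rw [map_add, map_mul, map_intCast, map_intCast]
  rfl

private theorem cja_om : om ^ 2 + om + 1 = 0 := omF_quad K

private theorem cja_omO : S3.omO ^ 2 + S3.omO + 1 = 0 := by
  apply RingOfIntegers.ext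
  change algebraMap (𝓞 K) K (S3.omO ^ 2 + S3.omO + 1) = algebraMap (𝓞 K) K 0
  rw [map_add, map_add, map_pow, map_one, map_zero]
  exact cja_om

private theorem cja_norm (m n : ℤ) :
    ((Ideal.absNorm (Ideal.span {(m : 𝓞 K) + (n : 𝓞 K) * S3.omO}) : ℕ) : ℤ) =
      m ^ 2 - m * n + n ^ 2 := by
  have h1 : embK (((m : 𝓞 K) + (n : 𝓞 K) * S3.omO : 𝓞 K) : K) = m + n * zt := by
    have e : (((m : 𝓞 K) + n * S3.omO : 𝓞 K) : K) = (m : K) + n * om := by
      change algebraMap (𝓞 K) K ((m : 𝓞 K) + n * S3.omO) = _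
      rw [map_add, map_mul, map_intCast, map_intCast]
      rfl
    rw [e, map_add, map_mul, map_intCast, map_intCast, embK_om]
  exact S3.card_quot _ h1

theorem exists_cj : ∃ f : 𝓞 K →+* 𝓞 K, ∀ m n : ℤ,
    f ((m : 𝓞 K) + (n : 𝓞 K) * S3.omO) = ((m - n : ℤ) : 𝓞 K) - (n : 𝓞 K) * S3.omO := by
  have hprim : IsPrimitiveRoot (om ^ 2) 3 := om_spec.pow_of_coprime 2 (by norm_num)
  obtain ⟨g, hg⟩ : ∃ g : K →ₐ[ℚ] K, g om = om ^ 2 := by
    have hmem : om ^ 2 ∈ primitiveRoots 3 K := (mem_primitiveRoots (by norm_num)).2 hprim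
    refine ⟨(om_spec.embeddingsEquivPrimitiveRoots K
      (Polynomial.cyclotomic.irreducible_rat (by norm_num))).symm ⟨om ^ 2, hmem⟩, ?_⟩
    rw [← om_spec.embeddingsEquivPrimitiveRoots_apply_coe K
      (Polynomial.cyclotomic.irreducible_rat (by norm_num)), Equiv.apply_symm_apply]
  refine ⟨RingOfIntegers.mapRingHom (g : K →+* K), fun m n => ?_⟩
  apply RingOfIntegers.ext
  rw [RingOfIntegers.mapRingHom_apply]
  have e : (((m : 𝓞 K) + n * S3.omO : 𝓞 K) : K) = (m : K) + n * om := by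
    change algebraMap (𝓞 K) K ((m : 𝓞 K) + n * S3.omO) = _
    rw [map_add, map_mul, map_intCast, map_intCast]
    rfl
  have e' : ((((m - n : ℤ) : 𝓞 K) - n * S3.omO : 𝓞 K) : K) = ((m - n : ℤ) : K) - n * om := by
    change algebraMap (𝓞 K) K (((m - n : ℤ) : 𝓞 K) - n * S3.omO) = _
    rw [map_sub, map_mul, map_intCast, map_intCast]
    rfl
  rw [e, e', map_add, map_mul, map_intCast, map_intCast]
  have hg' : (g : K →+* K) om = om ^ 2 := hg
  rw [hg']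
  push_cast
  linear_combination (n : K) * cja_om

/-- the conjugation of `𝓞 K` -/
def cj : 𝓞 K →+* 𝓞 K := exists_cj.choose

theorem cj_coords (m n : ℤ) :
    cj ((m : 𝓞 K) + (n : 𝓞 K) * S3.omO) = ((m - n : ℤ) : 𝓞 K) - (n : 𝓞 K) * S3.omO :=
  exists_cj.choose_spec m n

private theorem cja_cj (m n : ℤ) : cj ((m : 𝓞 K) + (n : 𝓞 K) * S3.omO) =
    ((m - n : ℤ) : 𝓞 K) + ((-n : ℤ) : 𝓞 K) * S3.omO := by
  rw [cj_coords]
  push_cast
  ring

theorem cj_cj (a : 𝓞 K) : cj (cj a) = a := by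
  obtain ⟨m, n, rfl⟩ := cja_coords a
  rw [cja_cj, cja_cj]
  push_cast
  ring

theorem mul_cj (a : 𝓞 K) : a * cj a = ((Ideal.absNorm (Ideal.span {a}) : ℕ) : 𝓞 K) := by
  obtain ⟨m, n, rfl⟩ := cja_coords a
  have h1 : ((Ideal.absNorm (Ideal.span {(m : 𝓞 K) + (n : 𝓞 K) * S3.omO}) : ℕ) : 𝓞 K) =
      ((((Ideal.absNorm (Ideal.span {(m : 𝓞 K) + (n : 𝓞 K) * S3.omO}) : ℕ) : ℤ)) : 𝓞 K) :=
    (Int.cast_natCast _).symm
  rw [h1, cja_norm, cj_coords]
  push_cast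
  linear_combination (-(n : 𝓞 K) ^ 2) * cja_omO

theorem cj_dvd_iff {a b : 𝓞 K} : cj a ∣ cj b ↔ a ∣ b := by
  constructor
  · intro h
    have h1 := map_dvd cj h
    rw [cj_cj, cj_cj] at h1
    exact h1
  · exact fun h => map_dvd cj h

theorem absNorm_cj (a : 𝓞 K) :
    Ideal.absNorm (Ideal.span {cj a}) = Ideal.absNorm (Ideal.span {a}) := by
  obtain ⟨m, n, rfl⟩ := cja_coords a
  have h1 : ((Ideal.absNorm (Ideal.span {cj ((m : 𝓞 K) + (n : 𝓞 K) * S3.omO)}) : ℕ) : ℤ) =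
      ((Ideal.absNorm (Ideal.span {(m : 𝓞 K) + (n : 𝓞 K) * S3.omO}) : ℕ) : ℤ) := by
    rw [cja_cj, cja_norm, cja_norm]
    ring
  exact_mod_cast h1

private theorem cjc_three {a : ℤ} (h : (3 : 𝓞 K) ∣ (a : 𝓞 K)) : (3 : ℤ) ∣ a := by
  obtain ⟨c, hc⟩ := h
  obtain ⟨m, n, hmn⟩ := S3.exists_coords c
  have h1 : ((Nat.card (𝓞 K ⧸ Ideal.span {(a : 𝓞 K)}) : ℕ) : ℤ) = a ^ 2 - a * 0 + 0 ^ 2 := by
    apply S3.card_quot
    have h2 : (((a : 𝓞 K)) : K) = (a : K) := map_intCast (algebraMap (𝓞 K) K) a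
    rw [h2, map_intCast]
    push_cast
    ring
  have h2 : ((Nat.card (𝓞 K ⧸ Ideal.span {(a : 𝓞 K)}) : ℕ) : ℤ) =
      (3 * m) ^ 2 - (3 * m) * (3 * n) + (3 * n) ^ 2 := by
    apply S3.card_quot
    have h3 : (((a : 𝓞 K)) : K) = 3 * ((m : K) + (n : K) * om) := by
      rw [hc, ← hmn]
      rfl
    rw [h3, map_mul, map_add, map_mul, map_intCast, map_intCast, embK_om, map_ofNat]
    push_cast
    ring
  have h3 : a ^ 2 = 3 * (3 * (m ^ 2 - m * n + n ^ 2)) := by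
    rw [h1] at h2
    linarith
  exact Int.Prime.dvd_pow' (by norm_num : Nat.Prime 3) ⟨_, h3⟩

private theorem cjc_form_aux {ℓ : ℕ} [Fact ℓ.Prime] {Q : Type*} [AddCommGroup Q]
    [Module (ZMod ℓ) Q] {x : Q} (hx : x ≠ 0) : ∃ f : Q →+ ZMod ℓ, f x ≠ 0 := by
  by_contra hcon
  push Not at hcon
  exact hx ((Module.forall_dual_apply_eq_zero_iff (ZMod ℓ) x).1
    fun f => hcon f.toAddMonoidHom)

private theorem cjc_form {ℓ : ℕ} [Fact ℓ.Prime] {Q : Type*} [AddCommGroup Q]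
    (hQ : ∀ x : Q, ℓ • x = 0) {x : Q} (hx : x ≠ 0) : ∃ f : Q →+ ZMod ℓ, f x ≠ 0 := by
  let _ : Module (ZMod ℓ) Q := AddCommGroup.zmodModule hQ
  exact cjc_form_aux hx

private theorem cjc_le {F : Type u} [Field F] [NumberField F] [Algebra K F]
    (w : HeightOneSpectrum (𝓞 F)) (a : 𝓞 K) : w.valuation F (algebraMap K F (a : K)) ≤ 1 := by
  classical
  exact v_alg_le (w.valuation F) a

section
variable {ϖ : 𝓞 K} {ℓ q : ℕ} (h : PD ϖ ℓ q)
include h

theorem pd_cj : PD (cj ϖ) ℓ q := by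
  have hinv : ∀ a, cj (cj a) = a := cj_cj
  let e : 𝓞 K ≃+* 𝓞 K := RingEquiv.ofRingHom cj cj (RingHom.ext hinv) (RingHom.ext hinv)
  have he : ∀ a, e a = cj a := fun a => rfl
  have hl : cj (ℓ : 𝓞 K) = (ℓ : 𝓞 K) := map_natCast cj ℓ
  refine ⟨h.hl, h.five, ?_, ?_, ?_, ?_, ?_, h.alt⟩
  · have h1 := (MulEquiv.prime_iff (p := ϖ) e.toMulEquiv).2 h.prime
    exact h1
  · have h1 : cj (3 : 𝓞 K) ∣ cj (ϖ - 1) := map_dvd cj h.one
    rw [map_sub, map_one, map_ofNat] at h1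
    exact h1
  · have h1 : cj ϖ ∣ cj (ℓ : 𝓞 K) := map_dvd cj h.dvd
    rw [hl] at h1
    exact h1
  · intro h1
    apply h.sq
    have h2 : cj (cj ϖ ^ 2) ∣ cj (ℓ : 𝓞 K) := map_dvd cj h1
    rw [hl, map_pow, cj_cj] at h2
    exact h2
  · rw [absNorm_cj]
    exact h.norm

theorem pd_mul_cj : ϖ * cj ϖ = (q : 𝓞 K) := by
  rw [mul_cj, h.norm]

/-- the split and the inert case -/
theorem pd_cases : (q = ℓ ∧ IsCoprime ϖ (cj ϖ)) ∨ (q = ℓ ^ 2 ∧ cj ϖ = ϖ) := by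
  have hm := pd_mul_cj h
  rcases h.alt with hq | hq
  · left
    refine ⟨hq, ?_⟩
    have h1 : ¬ ϖ ∣ cj ϖ := by
      rintro ⟨c, hc⟩
      apply h.sq
      rw [hq] at hm
      refine ⟨c, ?_⟩
      rw [← hm]
      linear_combination ϖ * hc
    obtain ⟨d, e, he⟩ := h.inv h1
    exact ⟨-e, d, by linear_combination he⟩
  · right
    refine ⟨hq, ?_⟩
    obtain ⟨u, hu⟩ := h.dvd
    have hl : cj (ℓ : 𝓞 K) = (ℓ : 𝓞 K) := map_natCast cj ℓ
    have hl0 : (ℓ : 𝓞 K) ≠ 0 := Nat.cast_ne_zero.2 h.hl.ne_zero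
    have h1 : (ℓ : 𝓞 K) = cj ϖ * cj u := by rw [← map_mul, ← hu, hl]
    have h2 : u * cj u = 1 := by
      have h3 : ((ℓ : 𝓞 K) ^ 2) * (u * cj u) = (ℓ : 𝓞 K) ^ 2 * 1 := by
        have h4 : ϖ * cj ϖ = (ℓ : 𝓞 K) ^ 2 := by
          rw [hm, hq, Nat.cast_pow]
        calc ((ℓ : 𝓞 K) ^ 2) * (u * cj u) = (ϖ * cj ϖ) * (u * cj u) := by rw [h4]
          _ = (ϖ * u) * (cj ϖ * cj u) := by ring
          _ = (ℓ : 𝓞 K) * (ℓ : 𝓞 K) := by rw [← hu, ← h1]
          _ = (ℓ : 𝓞 K) ^ 2 * 1 := by ring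
      exact mul_left_cancel₀ (pow_ne_zero 2 hl0) h3
    have h3 : cj ϖ = ϖ * u ^ 2 := by
      calc cj ϖ = cj ϖ * (u * cj u) := by rw [h2, mul_one]
        _ = (cj ϖ * cj u) * u := by ring
        _ = (ϖ * u) * u := by rw [← h1, hu]
        _ = ϖ * u ^ 2 := by ring
    have h4 : (3 : 𝓞 K) ∣ u ^ 2 - 1 := by
      have h5 := (pd_cj h).one
      have h6 := Dvd.dvd.mul_right h.one (u ^ 2)
      have h7 := dvd_sub h5 h6
      rw [h3] at h7
      have h8 : ϖ * u ^ 2 - 1 - (ϖ - 1) * u ^ 2 = u ^ 2 - 1 := by ring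
      rwa [h8] at h7
    obtain ⟨c, hc⟩ := h4
    obtain ⟨m, n, hmn⟩ := S3.exists_coords c
    have hc' : c = (m : 𝓞 K) + (n : 𝓞 K) * S3.omO := by
      apply RingOfIntegers.ext
      rw [hmn]
      change _ = algebraMap (𝓞 K) K ((m : 𝓞 K) + n * S3.omO)
      rw [map_add, map_mul, map_intCast, map_intCast]
      rfl
    have hcc : cj c = ((m - n : ℤ) : 𝓞 K) - (n : 𝓞 K) * S3.omO := by
      rw [hc', cj_coords]
    have hom : S3.omO ^ 2 + S3.omO + 1 = 0 := by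
      apply RingOfIntegers.ext
      change algebraMap (𝓞 K) K (S3.omO ^ 2 + S3.omO + 1) = algebraMap (𝓞 K) K 0
      rw [map_add, map_add, map_pow, map_one, map_zero]
      exact S3.om_quad
    have hu2 : u ^ 2 = 1 + 3 * c := by linear_combination hc
    have hcu2 : cj u ^ 2 = 1 + 3 * cj c := by
      have h5 := congrArg cj hu2
      rw [map_add, map_mul, map_pow, map_one, map_ofNat] at h5
      exact h5
    have h5 : (1 + 3 * c) * (1 + 3 * cj c) = 1 := by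
      rw [← hu2, ← hcu2, ← mul_pow, h2, one_pow]
    rw [hcc, hc'] at h5
    have h6 : (((2 * m - n) * 3 + 9 * (m ^ 2 - m * n + n ^ 2) : ℤ) : 𝓞 K) = ((0 : ℤ) : 𝓞 K) := by
      push_cast at h5 ⊢
      linear_combination h5 + 9 * (n : 𝓞 K) ^ 2 * hom
    have h7 : (2 * m - n) * 3 + 9 * (m ^ 2 - m * n + n ^ 2) = 0 := by
      exact_mod_cast h6
    have h8 : n = 0 ∧ m = 0 := by
      obtain ⟨s, hs⟩ : ∃ s, s = 2 * m - n := ⟨_, rfl⟩
      have h9 : 3 * s ^ 2 + 4 * s + 9 * n ^ 2 = 0 := by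
        rw [hs]
        linarith
      have h10 : s ≤ 0 := by nlinarith [sq_nonneg s, sq_nonneg n]
      have h11 : -1 ≤ s := by
        by_contra h12
        push Not at h12
        nlinarith [sq_nonneg n]
      rcases (show s = -1 ∨ s = 0 by omega) with h12 | h12
      · rw [h12] at h9
        omega
      · rw [h12] at h9
        have h13 : n = 0 := by
          have : n ^ 2 = 0 := by linarith
          exact pow_eq_zero_iff (two_ne_zero) |>.1 this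
        refine ⟨h13, ?_⟩
        rw [h12, h13] at hs
        omega
    rw [h8.1, h8.2] at hc'
    rw [h3, hu2, hc']
    simp

theorem pd_not_dvd_cj_sub_one (hq : q = ℓ) : ¬ ϖ ∣ cj ϖ - 1 := by
  intro hd
  obtain ⟨m, n, hmn⟩ := S3.exists_coords ϖ
  have hϖ : ϖ = (m : 𝓞 K) + (n : 𝓞 K) * S3.omO := by
    apply RingOfIntegers.ext
    rw [hmn]
    change _ = algebraMap (𝓞 K) K ((m : 𝓞 K) + (n : 𝓞 K) * S3.omO)
    rw [map_add, map_mul, map_intCast, map_intCast]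
    rfl
  have hcj : cj ϖ = ((m - n : ℤ) : 𝓞 K) - (n : 𝓞 K) * S3.omO := by
    rw [hϖ]
    exact cj_coords m n
  have hsum : ϖ + cj ϖ = ((2 * m - n : ℤ) : 𝓞 K) := by
    rw [hcj, hϖ]
    push_cast
    ring
  -- `ℓ ∣ a - 1`
  have h1 : (ℓ : ℤ) ∣ (2 * m - n) - 1 := by
    rw [← h.dvd_int_iff]
    have h2 : (((2 * m - n) - 1 : ℤ) : 𝓞 K) = ϖ + (cj ϖ - 1) := by
      rw [Int.cast_sub, ← hsum]
      push_cast
      ring
    rw [h2]
    exact dvd_add (dvd_refl _) hd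
  -- `3 ∣ a - 2`
  have h3 : (3 : ℤ) ∣ (2 * m - n) - 2 := by
    apply cjc_three
    have h2 : (((2 * m - n) - 2 : ℤ) : 𝓞 K) = (ϖ - 1) + (cj ϖ - 1) := by
      rw [Int.cast_sub, ← hsum]
      push_cast
      ring
    rw [h2]
    exact dvd_add h.one (pd_cj h).one
  -- the norm
  have h4 : (ℓ : ℤ) = m ^ 2 - m * n + n ^ 2 := by
    have h5 := S3.card_quot ϖ (p := m) (q := n) (by
      rw [hmn, map_add, map_mul, map_intCast, map_intCast, embK_om])
    have h6 : Nat.card (𝓞 K ⧸ Ideal.span {ϖ}) = ℓ := by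
      rw [← hq]
      exact h.norm
    rw [h6] at h5
    exact h5
  have h5 : 4 * (ℓ : ℤ) = (2 * m - n) ^ 2 + 3 * n ^ 2 := by
    rw [h4]
    ring
  have hl5 : (5 : ℤ) ≤ (ℓ : ℤ) := by exact_mod_cast h.five
  obtain ⟨j, hj⟩ := h1
  obtain ⟨i, hi⟩ := h3
  set a : ℤ := 2 * m - n with ha
  have ha2 : a = 3 * i + 2 := by omega
  have ha1 : a = ℓ * j + 1 := by omega
  have hn0 : 0 ≤ n ^ 2 := sq_nonneg n
  have hle : a ^ 2 ≤ 4 * (ℓ : ℤ) := by omega
  -- `ℓ = 1` modulo `3`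
  have hl3 : (3 : ℤ) ∣ (ℓ : ℤ) - 1 := by
    have h7 : (3 : ℤ) ∣ 4 * (ℓ : ℤ) - 4 := by
      rw [h5, ha2]
      exact ⟨3 * i ^ 2 + 4 * i + n ^ 2, by ring⟩
    omega
  have hl7 : (7 : ℤ) ≤ (ℓ : ℤ) := by omega
  have hj0 : j ≠ 0 := by
    rintro rfl
    omega
  rcases lt_or_gt_of_ne hj0 with hj1 | hj1
  · have h8 : a ≤ 1 - ℓ := by nlinarith
    nlinarith
  · have h8 : (ℓ : ℤ) + 1 ≤ a := by nlinarith
    nlinarith

section
variable {F : Type u} [Field F] [NumberField F] [Algebra K F] {w : HeightOneSpectrum (𝓞 F)}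

theorem pd_val_three (hw : w.valuation F (algebraMap K F (ϖ : K)) < 1) :
    w.valuation F (3 : F) = 1 := by
  have h3 : ¬ ϖ ∣ (3 : 𝓞 K) := by
    intro h3
    have h4 : ϖ ∣ ϖ - 1 := h3.trans h.one
    have h5 : ϖ ∣ 1 := by
      have h6 : (1 : 𝓞 K) = ϖ - (ϖ - 1) := by ring
      rw [h6]
      exact dvd_sub (dvd_refl _) h4
    exact h.prime.not_isUnit (isUnit_of_dvd_one h5)
  have h4 : algebraMap K F (((3 : 𝓞 K)) : K) = (3 : F) := by
    have h5 : (((3 : 𝓞 K)) : K) = (3 : K) := rfl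
    rw [h5, map_ofNat]
  have h6 := le_antisymm (cjc_le w (3 : 𝓞 K)) (by
    by_contra hcon
    exact h3 ((h.val_iff hw (3 : 𝓞 K)).1 (not_le.1 hcon)))
  rwa [h4] at h6

theorem pd_val_coprime (hw : w.valuation F (algebraMap K F (ϖ : K)) < 1) {c : 𝓞 K}
    (hc : ¬ ϖ ∣ c) : w.valuation F (algebraMap K F (c : K)) = 1 := by
  refine le_antisymm (cjc_le w c) ?_
  by_contra hcon
  exact hc ((h.val_iff hw c).1 (not_le.1 hcon))

theorem pd_val_ell_iff : w.valuation F (ℓ : F) < 1 ↔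
    w.valuation F (algebraMap K F (ϖ : K)) < 1 ∨
      w.valuation F (algebraMap K F (cj ϖ : K)) < 1 := by
  have hmul : w.valuation F (algebraMap K F (ϖ : K)) * w.valuation F (algebraMap K F (cj ϖ : K)) =
      w.valuation F (q : F) := by
    rw [← map_mul, ← map_mul]
    congr 1
    have h1 : ((ϖ : K)) * ((cj ϖ : 𝓞 K) : K) = ((ϖ * cj ϖ : 𝓞 K) : K) := rfl
    rw [h1, pd_mul_cj h]
    have h2 : (((q : 𝓞 K)) : K) = (q : K) := map_natCast (algebraMap (𝓞 K) K) q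
    rw [h2, map_natCast]
  have hle1 := cjc_le w ϖ
  have hle2 := cjc_le w (cj ϖ)
  have hlel : w.valuation F (ℓ : F) ≤ 1 := by
    have h1 := cjc_le w (ℓ : 𝓞 K)
    have h2 : (((ℓ : 𝓞 K)) : K) = (ℓ : K) := map_natCast (algebraMap (𝓞 K) K) ℓ
    rwa [h2, map_natCast] at h1
  have hq : w.valuation F (q : F) < 1 ↔ w.valuation F (ℓ : F) < 1 := by
    rcases h.alt with h1 | h1
    · rw [h1]
    · rw [h1, Nat.cast_pow, map_pow]
      constructor
      · intro h2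
        by_contra hcon
        have h3 : w.valuation F (ℓ : F) = 1 := le_antisymm hlel (not_lt.1 hcon)
        rw [h3, one_pow] at h2
        exact lt_irrefl _ h2
      · intro h2
        exact pow_lt_one₀ zero_le h2 two_ne_zero
  rw [← hq, ← hmul]
  constructor
  · intro h1
    by_contra hcon
    push Not at hcon
    have h2 := le_antisymm hle1 hcon.1
    have h3 := le_antisymm hle2 hcon.2
    rw [h2, h3, one_mul] at h1
    exact lt_irrefl _ h1
  · rintro (h1 | h1)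
    · exact mul_lt_one_of_nonneg_of_lt_one_left zero_le h1 hle2
    · exact mul_lt_one_of_nonneg_of_lt_one_right hle1 zero_le h1

/-- if `ℓ` has order one at `w` then so has the prime element -/
theorem od_of_un (hw : w.valuation F (algebraMap K F (ϖ : K)) < 1) (hun : od w (ℓ : F) = 1) :
    od w (algebraMap K F (ϖ : K)) = 1 := by
  obtain ⟨c, hc⟩ := h.dvd
  have hcn : ¬ ϖ ∣ c := by
    rintro ⟨d, rfl⟩
    exact h.sq ⟨d, by rw [hc]; ring⟩
  have h1 : (ℓ : F) = algebraMap K F (ϖ : K) * algebraMap K F (c : K) := by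
    rw [← map_mul]
    have h2 : ((ϖ : K)) * ((c : 𝓞 K) : K) = ((ϖ * c : 𝓞 K) : K) := rfl
    rw [h2, ← hc]
    have h3 : (((ℓ : 𝓞 K)) : K) = (ℓ : K) := map_natCast (algebraMap (𝓞 K) K) ℓ
    rw [h3, map_natCast]
  have hl0 : (ℓ : F) ≠ 0 := by
    have := h.hl.ne_zero
    exact_mod_cast this
  rw [h1] at hl0 hun
  have hc0 : algebraMap K F (c : K) ≠ 0 := right_ne_zero_of_mul hl0
  rw [od_mul w (left_ne_zero_of_mul hl0) hc0] at hun
  have h2 : od w (algebraMap K F (c : K)) = 0 := (val_eq_one_iff w hc0).1 (pd_val_coprime h hw hcn)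
  omega

end

/-- a nonzero additive map to `ZMod ℓ` which is zero on the multiples of the conjugate -/
theorem exists_phi : ∃ φ : 𝓞 K →+ ZMod ℓ, φ ≠ 0 ∧ ∀ x : 𝓞 K, cj ϖ ∣ x → φ x = 0 := by
  have hfact : Fact ℓ.Prime := ⟨h.hl⟩
  have hQ : ∀ x : 𝓞 K ⧸ Ideal.span {cj ϖ}, ℓ • x = 0 := by
    intro x
    obtain ⟨y, rfl⟩ := Ideal.Quotient.mk_surjective x
    rw [← map_nsmul, nsmul_eq_mul, Ideal.Quotient.eq_zero_iff_mem, Ideal.mem_span_singleton]
    exact (pd_cj h).dvd.mul_right y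
  have hnt : Nontrivial (𝓞 K ⧸ Ideal.span {cj ϖ}) := by
    apply Ideal.Quotient.nontrivial_iff.2
    intro htop
    rw [Ideal.span_singleton_eq_top] at htop
    exact (pd_cj h).prime.not_isUnit htop
  obtain ⟨x, hx⟩ := exists_ne (0 : 𝓞 K ⧸ Ideal.span {cj ϖ})
  obtain ⟨f, hf⟩ := cjc_form hQ hx
  obtain ⟨y, rfl⟩ := Ideal.Quotient.mk_surjective x
  refine ⟨f.comp (Ideal.Quotient.mk (Ideal.span {cj ϖ})).toAddMonoidHom, ?_, ?_⟩
  · intro h0
    apply hf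
    have h1 := DFunLike.congr_fun h0 y
    exact h1
  · intro z hz
    have h1 : Ideal.Quotient.mk (Ideal.span {cj ϖ}) z = 0 := by
      rw [Ideal.Quotient.eq_zero_iff_mem, Ideal.mem_span_singleton]
      exact hz
    change f (Ideal.Quotient.mk (Ideal.span {cj ϖ}) z) = 0
    rw [h1, map_zero]

end

end

end Pool.Agent.Lib.MP_1a91b9_ntT.DX
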