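import Pool.Agent.Lib.MP_1a91b9_ntT.DX.Cj

/-!
# DX: images of points, restriction and extension of automorphisms, the data of the top

PROOF (complete; stream DX of helper92, top of Theorem D). Jobs DfA (section 1: `up_*`), DfB (section 2:
automorphisms), DfC (section 3: `desc_pt`, `TD.*`).

Section 1. `up L P` is the image of a point under `F → L`; `Affine.Point.map`. `up_sm`: `pm_sm`. `ker_up`:
`xc_pm` and `val_map_lt`/`val_map_le` (`Ker`: `P = 0` or `1 < v x`; `up L P = 0` iff `P = 0`).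
`ga_up_self`: an automorphism over `F` fixes the image of a point of `F` (`xc_ga`, `AlgEquiv.commutes`).
`ord_up`: `Ord.map`.

Section 2. `L / F` Galois, `N` an intermediate field (as an algebra) Galois over `F`. `rs g = g` restricted
to `N` (`AlgEquiv.restrictNormal`), `AlgEquiv.restrictNormal_commutes`. `ga_up`: coordinates. `exists_lift`:
`AlgEquiv.restrictNormalHom_surjective`. `exists_of_rs_one`: if `g` is the identity on `N` it is
`N`-linear: `{ g with commutes' := .. }`. `toF σ`: an automorphism over `N` is an automorphism over `F`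
(`AlgEquiv.restrictScalars F`).

Section 3. `desc_pt`: a point of `L` fixed by `Gal(L/F)` has coordinates fixed by `Gal(L/F)`, which are in
the image of `F` (`IsGalois.mem_range_algebraMap_iff_fixed` or `IsGalois.tfae`); the equation descends.
`TD.exists_d`, `exists_c`, `exists_x`: `gal_sm` applied to the points `up L P₀`, `up L P₂` (they have
annihilators `(ϖ)`, `(cj ϖ)`: `Ord.map`); `σ ζ` is a root of unity of order dividing `ℓ`
(`IsPrimitiveRoot.eq_pow_of_pow_eq_one`). `TD.exists_kap`: `sm (cj ϖ) (ga σ Q - Q) = ga σ (up P) - up P =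
0`, so `ga σ Q - Q = sm x R` by `ord_cases` (with an embedding `exists_emb`).
`TD.kap_unique`: `Ord.sm_eq_iff`. `TD.rs_one`: if `g` fixes `up L P₀` then `rs g` fixes `P₀` (`ga_up`,
`up_inj`), so `rs g = 1` (`full.gen`).
-/

set_option autoImplicit false

namespace Pool.Agent.Lib.MP_1a91b9_ntT.DX

open NumberField IsDedekindDomain WeierstrassCurve DB

universe u

noncomputable section

section
variable {N : Type u} [Field N] [NumberField N] [Algebra K N] [DecidableEq N]
  (L : Type u) [Field L] [NumberField L] [Algebra K L] [DecidableEq L] [Algebra N L]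
  [IsScalarTower K N L]

/-- the image of a point in an extension -/
def up (P : Pt N) : Pt L := pm (IsScalarTower.toAlgHom K N L) P

theorem up_inj {P P' : Pt N} : up L P = up L P' ↔ P = P' := by
  exact (pm_inj _).eq_iff

theorem up_zero : up L (0 : Pt N) = 0 := by
  exact map_zero (pm (IsScalarTower.toAlgHom K N L))

theorem up_add (P P' : Pt N) : up L (P + P') = up L P + up L P' := by
  exact map_add (pm (IsScalarTower.toAlgHom K N L)) P P'

theorem up_sub (P P' : Pt N) : up L (P - P') = up L P - up L P' := by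
  exact map_sub (pm (IsScalarTower.toAlgHom K N L)) P P'

theorem up_nsmul (n : ℕ) (P : Pt N) : up L (n • P) = n • up L P := by
  exact map_nsmul (pm (IsScalarTower.toAlgHom K N L)) n P

theorem up_sm (c : 𝓞 K) (P : Pt N) : up L (sm N c P) = sm L c (up L P) := by
  exact pm_sm (IsScalarTower.toAlgHom K N L) c P

theorem xc_up (P : Pt N) : xc (up L P) = algebraMap N L (xc P) := by
  exact xc_pm (IsScalarTower.toAlgHom K N L) P

theorem yc_up (P : Pt N) : yc (up L P) = algebraMap N L (yc P) := by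
  exact yc_pm (IsScalarTower.toAlgHom K N L) P

theorem tc_up (P : Pt N) : tc (up L P) = algebraMap N L (tc P) := by
  exact tc_pm (IsScalarTower.toAlgHom K N L) P

theorem ord_up {β : 𝓞 K} {P : Pt N} : Ord β (up L P) ↔ Ord β P := by
  exact Ord.map (IsScalarTower.toAlgHom K N L)

theorem ker_up (W : HeightOneSpectrum (𝓞 L)) (P : Pt N) :
    Ker (W.valuation L) (up L P) ↔ Ker ((W.under (𝓞 N)).valuation N) P := by
  unfold Ker
  have h1 : up L P = 0 ↔ P = 0 := by
    rw [← up_zero (N := N) L, up_inj]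
  rw [h1, xc_up, ← not_le, ← not_le, val_map_le]

/-- an automorphism over `N` fixes the points of `N` -/
theorem ga_up_self (σ : Gal(L/N)) (P : Pt N) : ga σ (up L P) = up L P := by
  by_cases hP : P = 0
  · rw [hP, up_zero, map_zero]
  · have h1 : up L P ≠ 0 := by
      rw [← up_zero (N := N) L, Ne, up_inj]
      exact hP
    have h2 : ga σ (up L P) ≠ 0 := by
      intro h
      apply h1
      apply pm_inj ((σ : L →ₐ[N] L).restrictScalars K)
      rw [map_zero]
      exact h
    refine pt_ext h2 h1 ?_ ?_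
    · rw [xc_ga, xc_up, AlgEquiv.commutes]
    · rw [yc_ga, yc_up, AlgEquiv.commutes]

end

section
variable {F N L : Type u} [Field F] [NumberField F] [Algebra K F] [Field N] [NumberField N]
  [Algebra K N] [Field L] [NumberField L] [Algebra K L] [Algebra F N] [Algebra F L] [Algebra N L]
  [IsScalarTower K F N] [IsScalarTower K F L] [IsScalarTower K N L] [IsScalarTower F N L]

/-- an automorphism over `N` as an automorphism over `F` -/
def toF (F : Type u) {N L : Type u} [Field F] [Field N] [Field L] [Algebra F N] [Algebra F L]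
    [Algebra N L] [IsScalarTower F N L] (σ : Gal(L/N)) : Gal(L/F) := AlgEquiv.restrictScalars F σ

theorem toF_apply (σ : Gal(L/N)) (x : L) : toF F σ x = σ x := rfl

theorem ga_toF [DecidableEq L] (σ : Gal(L/N)) (P : Pt L) : ga (toF F σ) P = ga σ P :=
  rfl

theorem sg_toF (σ : Gal(L/N)) (y : Lˣ) : sg (toF F σ) y = sg σ y :=
  Units.ext rfl

variable [IsGalois F N]

/-- the restriction of an automorphism to `N` -/
def rs (N : Type u) [Field N] [Algebra F N] [Algebra N L] [IsScalarTower F N L] [IsGalois F N]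
    (g : Gal(L/F)) : Gal(N/F) := g.restrictNormal N

theorem rs_apply (g : Gal(L/F)) (x : N) : algebraMap N L (rs N g x) = g (algebraMap N L x) :=
  AlgEquiv.restrictNormal_commutes g N x

theorem rs_mul (g h : Gal(L/F)) : rs N (g * h) = rs N g * rs N h := by
  apply AlgEquiv.ext
  intro x
  apply (algebraMap N L).injective
  rw [rs_apply, AlgEquiv.mul_apply, AlgEquiv.mul_apply, rs_apply, rs_apply]

theorem rs_toF (σ : Gal(L/N)) : rs N (toF F σ) = 1 := by
  apply AlgEquiv.ext
  intro x
  apply (algebraMap N L).injective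
  rw [rs_apply, AlgEquiv.one_apply, toF_apply, AlgEquiv.commutes]

theorem ga_up [DecidableEq N] [DecidableEq L] (g : Gal(L/F)) (P : Pt N) :
    ga g (up L P) = up L (ga (rs N g) P) := by
  rcases cases_pt P with rfl | ⟨x, y, h, rfl⟩
  · rw [up, up, map_zero, map_zero, map_zero, map_zero]
  · obtain ⟨h1, e1⟩ := pm_mk (IsScalarTower.toAlgHom K N L) x y h
    obtain ⟨h2, e2⟩ := pm_mk (((rs N g : Gal(N/F)) : N →ₐ[F] N).restrictScalars K) x y h
    rw [up, up, ga, ga, e1, e2]
    obtain ⟨h3, e3⟩ := pm_mk ((g : L →ₐ[F] L).restrictScalars K) _ _ h1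
    obtain ⟨h4, e4⟩ := pm_mk (IsScalarTower.toAlgHom K N L) _ _ h2
    rw [e3, e4, mk_inj]
    exact ⟨(rs_apply g x).symm, (rs_apply g y).symm⟩

theorem exists_of_rs_one (g : Gal(L/F)) (hg : rs N g = 1) : ∃ σ : Gal(L/N), toF F σ = g := by
  have hc : ∀ x : N, g.toRingEquiv (algebraMap N L x) = algebraMap N L x := by
    intro x
    have h1 := rs_apply (N := N) g x
    rw [hg, AlgEquiv.one_apply] at h1
    exact h1.symm
  exact ⟨AlgEquiv.ofRingEquiv (f := g.toRingEquiv) hc, AlgEquiv.ext fun _ => rfl⟩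

theorem exists_lift [IsGalois F L] (σ : Gal(N/F)) : ∃ g : Gal(L/F), rs N g = σ := by
  obtain ⟨g, hg⟩ := AlgEquiv.restrictNormalHom_surjective (F := F) (K₁ := N) L σ
  exact ⟨g, hg⟩

end

section
variable {F L : Type u} [Field F] [NumberField F] [Algebra K F] [Field L] [NumberField L]
  [Algebra K L] [Algebra F L] [IsScalarTower K F L] [IsGalois F L] [DecidableEq F] [DecidableEq L]

private theorem dfc_fix {F L : Type u} [Field F] [NumberField F] [Field L] [NumberField L]
    [Algebra F L] [IsGalois F L] {z : L} (h : ∀ σ : Gal(L/F), σ z = z) :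
    ∃ a : F, algebraMap F L a = z := by
  have hfin : Module.Finite F L := Module.Finite.of_restrictScalars_finite ℚ F L
  exact (IsGalois.mem_range_algebraMap_iff_fixed z).2 h

/-- a point fixed by the Galois group comes from the base field -/
theorem desc_pt {P : Pt L} (h : ∀ σ : Gal(L/F), ga σ P = P) : ∃ P' : Pt F, up L P' = P := by
  rcases cases_pt P with rfl | ⟨x, y, hxy, rfl⟩
  · exact ⟨0, up_zero L⟩
  · have h1 : ∀ σ : Gal(L/F), σ x = x ∧ σ y = y := by
      intro σ
      obtain ⟨h3, e3⟩ := pm_mk ((σ : L →ₐ[F] L).restrictScalars K) x y hxy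
      exact mk_inj.1 (e3.symm.trans (h σ))
    obtain ⟨a, ha⟩ := dfc_fix (fun σ => (h1 σ).1)
    obtain ⟨b, hb⟩ := dfc_fix (fun σ => (h1 σ).2)
    subst ha
    subst hb
    have h2 : b ^ 2 + b = a ^ 3 := by
      apply (algebraMap F L).injective
      rw [map_add, map_pow, map_pow]
      exact hxy
    exact ⟨mkPt a b h2, rfl⟩

theorem mem_of_fixed {z : L} (h : ∀ σ : Gal(L/F), σ z = z) : ∃ a : F, algebraMap F L a = z := by
  exact dfc_fix h

end

section
variable {F N N₂ L : Type u} [Field F] [NumberField F] [Algebra K F] [Field N] [NumberField N]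
  [Algebra K N] [Field N₂] [NumberField N₂] [Algebra K N₂] [Field L] [NumberField L] [Algebra K L]
  [Algebra F N] [Algebra F N₂] [Algebra F L] [Algebra N L] [Algebra N₂ L]
  [IsScalarTower K F N] [IsScalarTower K F N₂] [IsScalarTower K F L] [IsScalarTower K N L]
  [IsScalarTower K N₂ L] [IsScalarTower F N L] [IsScalarTower F N₂ L]
  [DecidableEq F] [DecidableEq N] [DecidableEq N₂] [DecidableEq L]
  [IsGalois F N] [IsGalois F N₂] [IsGalois F L]

/-- The data of the top. `P` is a point of `F` and `Q` a point of `L` with `cj ϖ Q = P`; `P₀` has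
annihilator `(ϖ)` and generates `N`, `P₂` has annihilator `(cj ϖ)` and generates `N₂`; `ζ` is an
`ℓ`-th root of unity; `L` is generated by all of these. -/
structure TD (ϖ : 𝓞 K) (ℓ q : ℕ) (P : Pt F) (P₀ : Pt N) (P₂ : Pt N₂) (ζ : L) (Q : Pt L) : Prop where
  pd : PD ϖ ℓ q
  full : Full F ϖ P₀
  full₂ : Full F (cj ϖ) P₂
  zeta : IsPrimitiveRoot ζ ℓ
  div : sm L (cj ϖ) Q = up L P
  gen : ∀ σ : Gal(L/F), ga σ (up L P₀) = up L P₀ → ga σ (up L P₂) = up L P₂ → ga σ Q = Q →
    σ ζ = ζ → σ = 1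

variable {ϖ : 𝓞 K} {ℓ q : ℕ} {P : Pt F} {P₀ : Pt N} {P₂ : Pt N₂} {ζ : L} {Q : Pt L}
  (D : TD ϖ ℓ q P P₀ P₂ ζ Q)
include D

theorem TD.exists_d (g : Gal(L/F)) :
    ∃ d : 𝓞 K, ¬ ϖ ∣ d ∧ ga g (up L P₀) = sm L d (up L P₀) := by
  obtain ⟨c, hc1, hc2⟩ := gal_sm (k := F) D.pd.prime.ne_zero ((ord_up L).2 D.full.ord) g
  refine ⟨c, fun hd => ?_, hc2⟩
  exact D.pd.prime.not_isUnit (hc1.isUnit_of_dvd' hd dvd_rfl)

theorem TD.exists_c (g : Gal(L/F)) :
    ∃ c : 𝓞 K, ¬ cj ϖ ∣ c ∧ ga g (up L P₂) = sm L c (up L P₂) := by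
  have hp := (pd_cj D.pd).prime
  obtain ⟨c, hc1, hc2⟩ := gal_sm (k := F) hp.ne_zero ((ord_up L).2 D.full₂.ord) g
  refine ⟨c, fun hd => ?_, hc2⟩
  exact hp.not_isUnit (hc1.isUnit_of_dvd' hd dvd_rfl)

theorem TD.exists_x (g : Gal(L/F)) : ∃ x : ℕ, g ζ = ζ ^ x := by
  have h1 : (g ζ) ^ ℓ = 1 := by
    rw [← map_pow, D.zeta.pow_eq_one, map_one]
  haveI : NeZero ℓ := ⟨D.pd.hl.ne_zero⟩
  obtain ⟨i, _, hi⟩ := D.zeta.eq_pow_of_pow_eq_one h1
  exact ⟨i, hi.symm⟩

/-- the cocycle of `Q` -/
theorem TD.exists_kap (g : Gal(L/F)) : ∃ x : 𝓞 K, ga g Q - Q = sm L x (up L P₂) := by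
  obtain ⟨f⟩ := exists_emb L
  have hp := (pd_cj D.pd).prime
  refine ord_cases f hp.ne_zero ((ord_up L).2 D.full₂.ord) ?_
  rw [map_sub, ← ga_sm, D.div, ga_up_self, sub_self]

theorem TD.kap_unique {x y : 𝓞 K} :
    sm L x (up L P₂) = sm L y (up L P₂) ↔ cj ϖ ∣ x - y := by
  exact Ord.sm_eq_iff ((ord_up L).2 D.full₂.ord) x y

theorem TD.rs_one (g : Gal(L/F)) (hg : ga g (up L P₀) = up L P₀) : rs N g = 1 := by
  apply D.full.gen
  rw [← up_inj L, ← ga_up]
  exact hg

end

end

end Pool.Agent.Lib.MP_1a91b9_ntT.DX
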